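import Mathlib
import Pool.Agent.H86.XP.Defs
import Pool.Agent.H55.QT.Xor
import Pool.Agent.H63.ZS.Stm3

set_option autoImplicit false
set_option linter.unusedSectionVars false

/-!
# THEOREM ZX (Frege over parities of any length, random 3-CNFs): definitions

The variable `i : Fin M` stands for the parity of `x` on the set `a i`. `ParCl φ a ℓ`: the clauses of length at most `ℓ` in these variables
which follow from at most `ℓ` clauses of `φ`. `Wo B s r D q a`: the equations `B j`, `s j` (`∏ v ∈ B j, y v = s j`, `y v = -1` if `x v` is true),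
sums of at most `2 r` equations are nontrivial, and sums of at most `2 r` equations at distance at most `q` of a sum of at most `D` of the sets
`a i` are sums of at most `r` equations. `zE`: the functional `E~ [∏ i ∈ U, X i]`, `X i = -∏ v ∈ a i, y v` (`1` if the parity of `x` on `a i` is odd).
-/

namespace Pool.H63.ZX

open Finset Classical Pool.H6.QL Pool.Agent.H55.QT Pool.H86.XP

/-- The clauses of length at most `ℓ` in the parities of `x` on the sets `a i` which follow from at most `ℓ` clauses of `φ`. -/
def ParCl {n m M : ℕ} (φ : Fin m → Cl n) (a : Fin M → Finset (Fin n)) (ℓ : ℝ) : Set (List (Fin M × Bool)) :=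
  {c | (c.length : ℝ) ≤ ℓ ∧ ∃ J : Finset (Fin m), (J.card : ℝ) ≤ ℓ ∧
    ∀ x : Fin n → Bool, (∀ j ∈ J, ∃ i, x ((φ j).1 i) = (φ j).2 i) → ∃ l ∈ c, px x (a l.1) = l.2}

structure Wo {n m M : ℕ} (B : Fin m → Finset (Fin n)) (s : Fin m → ℝ) (r D q : ℕ) (a : Fin M → Finset (Fin n)) : Prop where
  one : 1 ≤ r
  sgn : ∀ j, s j = 1 ∨ s j = -1
  inj : ∀ I : Finset (Fin m), I.card ≤ 2 * r → par B I = ∅ → I = ∅
  abs : ∀ (I : Finset (Fin m)) (U : Finset (Fin M)), I.card ≤ 2 * r → U.card ≤ D →
    (symmDiff (par B I) (par a U)).card ≤ q → I.card ≤ r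

/-- The functional. -/
noncomputable def zE {n m M : ℕ} (B : Fin m → Finset (Fin n)) (s : Fin m → ℝ) (r : ℕ) (a : Fin M → Finset (Fin n))
    (U : Finset (Fin M)) : ℝ := (-1) ^ U.card * xE B s r (par a U)

/-- The sign of the equation of the clause `c` with support `S`: an odd number of the literals with variables in `S` is true. -/
noncomputable def sS {n : ℕ} (c : Cl n) (S : Finset (Fin n)) : ℝ :=
  -∏ i ∈ univ.filter fun i : Fin 3 => c.1 i ∈ S, (if c.2 i = true then (1 : ℝ) else -1)

end Pool.H63.ZX
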