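import Mathlib
import Pool.Agent.H63.ZX.Defs

set_option autoImplicit false
set_option linter.unusedSectionVars false

/-!
# Module Z1 (THEOREM ZX): the functional on the products of parities is of XOR type
-/

namespace Pool.H63.ZX

open Finset Classical Pool.H6.QL Pool.Agent.H55.QT Pool.H86.XP

variable {n m M : ℕ} {B : Fin m → Finset (Fin n)} {s : Fin m → ℝ} {r D q : ℕ} {a : Fin M → Finset (Fin n)}

private theorem zcard_sd {α : Type} [DecidableEq α] (A B : Finset α) :
    (symmDiff A B).card + 2 * (A ∩ B).card = A.card + B.card := by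
  have h1 : symmDiff A B = (A \ B) ∪ (B \ A) := by
    ext x; simp [Finset.mem_symmDiff]
  have h2 : Disjoint (A \ B) (B \ A) := by
    rw [Finset.disjoint_left]
    intro x hx hy
    simp only [Finset.mem_sdiff] at hx hy
    exact hx.2 hy.1
  have h3 : (A \ B).card + (A ∩ B).card = A.card := Finset.card_sdiff_add_card_inter A B
  have h4 : (B \ A).card + (B ∩ A).card = B.card := Finset.card_sdiff_add_card_inter B A
  have h5 : B ∩ A = A ∩ B := Finset.inter_comm B A
  rw [h5] at h4
  rw [h1, Finset.card_union_of_disjoint h2]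
  omega

theorem zcard_sd_le {α : Type} [DecidableEq α] (A B : Finset α) :
    (symmDiff A B).card ≤ A.card + B.card := by
  have := zcard_sd A B
  omega

theorem par_empty' {n m : ℕ} (B : Fin m → Finset (Fin n)) : par B ∅ = ∅ := by
  ext x
  simp [par]

theorem zprod (hs : ∀ j, s j = 1 ∨ s j = -1) (I : Finset (Fin m)) : (∏ j ∈ I, s j) = 1 ∨ (∏ j ∈ I, s j) = -1 := by
  induction I using Finset.induction_on with
  | empty => left; simp
  | insert a I ha ih =>
    rw [Finset.prod_insert ha]
    rcases hs a with h | h <;> rcases ih with h' | h' <;> rw [h, h'] <;> norm_num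

theorem zprod_sd (hs : ∀ j, s j = 1 ∨ s j = -1) (I J : Finset (Fin m)) :
    (∏ j ∈ symmDiff I J, s j) = (∏ j ∈ I, s j) * ∏ j ∈ J, s j := by
  have hsq : ∀ I : Finset (Fin m), (∏ j ∈ I, s j) * (∏ j ∈ I, s j) = 1 := by
    intro I
    rcases zprod hs I with h | h <;> rw [h] <;> norm_num
  have e1 : symmDiff I J = (I \ J) ∪ (J \ I) := by
    ext x; simp [Finset.mem_symmDiff]
  have e2 : Disjoint (I \ J) (J \ I) := by
    rw [Finset.disjoint_left]
    intro x hx hy
    simp only [Finset.mem_sdiff] at hx hy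
    exact hx.2 hy.1
  have e3 : (∏ j ∈ I, s j) = (∏ j ∈ I \ J, s j) * ∏ j ∈ I ∩ J, s j := by
    rw [← Finset.prod_union (Finset.disjoint_sdiff_inter I J), Finset.sdiff_union_inter]
  have e4 : (∏ j ∈ J, s j) = (∏ j ∈ J \ I, s j) * ∏ j ∈ I ∩ J, s j := by
    rw [Finset.inter_comm I J, ← Finset.prod_union (Finset.disjoint_sdiff_inter J I),
      Finset.sdiff_union_inter]
  rw [e1, Finset.prod_union e2, e3, e4]
  have := hsq (I ∩ J)
  calc (∏ j ∈ I \ J, s j) * ∏ j ∈ J \ I, s j
      = (∏ j ∈ I \ J, s j) * (∏ j ∈ J \ I, s j) * 1 := by ring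
    _ = (∏ j ∈ I \ J, s j) * (∏ j ∈ J \ I, s j) *
        ((∏ j ∈ I ∩ J, s j) * ∏ j ∈ I ∩ J, s j) := by rw [this]
    _ = _ := by ring

/-- multiplication by a sum of at most `r` equations, if that does not leave the sums of at most `r` equations -/
theorem xE_mul (h : Wo B s r D q a) {I : Finset (Fin m)} (hI : I.card ≤ r) {T : Finset (Fin n)}
    (hT : ∀ J : Finset (Fin m), J.card ≤ 2 * r → par B J = T → J.card ≤ r)
    (hIT : ∀ J : Finset (Fin m), J.card ≤ 2 * r → par B J = symmDiff (par B I) T → J.card ≤ r) :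
    xE B s r (symmDiff (par B I) T) = (∏ j ∈ I, s j) * xE B s r T := by
  by_cases hex : ∃ J : Finset (Fin m), J.card ≤ r ∧ par B J = T
  · obtain ⟨J, hJ, rfl⟩ := hex
    have h3 : (symmDiff I J).card ≤ r := by
      refine hIT _ ?_ (par_symm B I J)
      have := zcard_sd_le I J
      omega
    rw [← par_symm, xE_eq h.inj h3, xE_eq h.inj hJ, zprod_sd h.sgn]
  · have hn : ¬ ∃ J : Finset (Fin m), J.card ≤ r ∧ par B J = symmDiff (par B I) T := by
      rintro ⟨J, hJ, hJ2⟩
      apply hex
      have e1 : par B (symmDiff I J) = T := by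
        rw [par_symm, hJ2, symmDiff_symmDiff_cancel_left]
      refine ⟨symmDiff I J, hT _ ?_ e1, e1⟩
      have := zcard_sd_le I J
      omega
    have e1 : xE B s r T = 0 := by rw [xE, dif_neg hex]
    have e2 : xE B s r (symmDiff (par B I) T) = 0 := by rw [xE, dif_neg hn]
    rw [e1, e2, mul_zero]

theorem zE_xg (h : Wo B s r D q a) : XG D (zE B s r a) := by
  have hx0 : ∀ S : Finset (Fin n), xE B s r S = 0 ∨ xE B s r S = 1 ∨ xE B s r S = -1 := by
    intro S
    rw [xE]
    split_ifs with h1
    · exact Or.inr (zprod h.sgn _)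
    · exact Or.inl rfl
  refine ⟨?_, ?_, ?_⟩
  · unfold zE
    have h3 := xE_eq (s := s) h.inj (I := ∅) (by simp)
    rw [par_empty'] at h3
    rw [par_empty', h3]
    simp
  · intro S
    unfold zE
    rcases neg_one_pow_eq_or ℝ S.card with h1 | h1 <;> rcases hx0 (par a S) with h2 | h2 | h2 <;> rw [h1, h2] <;>
      norm_num
  · intro S T hS hT hST hne
    have hi : (fun a b : Fin M => propDecidable (a = b)) = instDecidableEqFin M := by
      funext a b
      exact Subsingleton.elim _ _
    rw [hi] at hST ⊢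
    have hsg : (-1 : ℝ) ^ (symmDiff S T).card = (-1) ^ S.card * (-1) ^ T.card := by
      rw [← pow_add, ← zcard_sd S T, pow_add, pow_mul]
      norm_num
    unfold zE at hne ⊢
    have hexS : ∃ I : Finset (Fin m), I.card ≤ r ∧ par B I = par a S := by
      by_contra h1
      exact hne (by rw [xE, dif_neg h1, mul_zero])
    obtain ⟨I, hI, hIS⟩ := hexS
    have key := xE_mul h hI (T := par a T)
      (fun J hJ hJT => h.abs J T hJ hT (by
        rw [hJT, symmDiff_self]
        exact Nat.zero_le _))
      (fun J hJ hJT => h.abs J (symmDiff S T) hJ hST (by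
        rw [hJT, hIS, ← par_symm, symmDiff_self]
        exact Nat.zero_le _))
    rw [par_symm, ← hIS, key, xE_eq h.inj hI, hsg]
    ring

end Pool.H63.ZX
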