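import Mathlib
import Pool.Agent.H63.ZX.Xgz

set_option autoImplicit false
set_option linter.unusedSectionVars false

/-!
# Module Z2 (THEOREM ZX): the functional vanishes on the clauses over parities

`ch S x = ∏ v ∈ S, y v`, `y v = -1` if `x v` is true. `zL E f = ∑ x, w x * f x` with `zL E (ch S) = E S` (characters are orthogonal).
`zQ D q a`: the span of the `ch S` with `S` at distance at most `q` of a sum of at most `D` sets `a i`. `zF c x`: `1` if the clause `c` is
false at `x`, otherwise `0`. (1) `zL (ch (B j) * g) = s j * zL g`. (2) `zF (φ j) * ch (B j) = - s j * zF (φ j)`, so `zL (zF (φ j) * g) = 0`. (3) Induction on `J`: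
`zL g = 0` if `g` vanishes where the clauses in `J` hold (`g = zF g + (1 - zF) g`). (4) `pe (zE B s r a) c U = zL (f_c * X_U)`.
-/

namespace Pool.H63.ZX

open Finset Classical Pool.H6.QL Pool.Agent.H55.QT Pool.H86.XP

section char

variable {n : ℕ}

/-- characters -/
noncomputable def ch (S : Finset (Fin n)) : (Fin n → Bool) → ℝ := fun x => ∏ v ∈ S, if x v = true then (-1 : ℝ) else 1

theorem ch_mul (S T : Finset (Fin n)) : ch S * ch T = ch (symmDiff S T) := by
  funext x
  have h := zprod_sd (m := n) (s := fun v => if x v = true then (-1 : ℝ) else 1) (fun v => by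
    by_cases h : x v = true
    · right; simp [h]
    · left; simp [h]) S T
  exact h.symm

theorem ch_empty : ch (∅ : Finset (Fin n)) = 1 := by
  funext x
  simp [ch]

private theorem ch_sum (W : Finset (Fin n)) : ∑ x : Fin n → Bool, ch W x = if W = ∅ then (2 : ℝ) ^ n else 0 := by
  have h1 : ∀ x : Fin n → Bool, ch W x = ∏ v : Fin n, (fun (v : Fin n) (b : Bool) =>
      if v ∈ W then (if b = true then (-1 : ℝ) else 1) else 1) v (x v) := by
    intro x
    show ∏ v ∈ W, (if x v = true then (-1 : ℝ) else 1) =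
      ∏ v : Fin n, if v ∈ W then (if x v = true then (-1 : ℝ) else 1) else 1
    rw [Finset.prod_ite_mem, Finset.univ_inter]
  have h2 := Finset.prod_univ_sum (fun _ : Fin n => (Finset.univ : Finset Bool))
    (fun (v : Fin n) (b : Bool) => if v ∈ W then (if b = true then (-1 : ℝ) else 1) else 1)
  rw [Fintype.piFinset_univ] at h2
  rw [Finset.sum_congr rfl fun x _ => h1 x, ← h2]
  by_cases hW : W = ∅
  · subst hW
    simp
  · rw [if_neg hW]
    obtain ⟨v, hv⟩ := Finset.nonempty_iff_ne_empty.2 hW
    refine Finset.prod_eq_zero (Finset.mem_univ v) ?_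
    simp [hv]

/-- the linear functional with given values on the characters -/
noncomputable def zL (E : Finset (Fin n) → ℝ) : ((Fin n → Bool) → ℝ) →ₗ[ℝ] ℝ where
  toFun f := ∑ x : Fin n → Bool, ((2 : ℝ) ^ n)⁻¹ * (∑ S, E S * ch S x) * f x
  map_add' f g := by
    rw [← Finset.sum_add_distrib]
    refine Finset.sum_congr rfl fun x _ => ?_
    rw [Pi.add_apply]
    ring
  map_smul' c f := by
    rw [RingHom.id_apply, smul_eq_mul, Finset.mul_sum]
    refine Finset.sum_congr rfl fun x _ => ?_
    rw [Pi.smul_apply, smul_eq_mul]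
    ring

theorem zL_ch (E : Finset (Fin n) → ℝ) (T : Finset (Fin n)) : zL E (ch T) = E T := by
  have h0 : ((2 : ℝ) ^ n) ≠ 0 := by positivity
  show ∑ x : Fin n → Bool, ((2 : ℝ) ^ n)⁻¹ * (∑ S, E S * ch S x) * ch T x = E T
  have h1 : ∀ x : Fin n → Bool, ((2 : ℝ) ^ n)⁻¹ * (∑ S, E S * ch S x) * ch T x =
      ∑ S, ((2 : ℝ) ^ n)⁻¹ * E S * ch (symmDiff S T) x := by
    intro x
    rw [mul_assoc, Finset.sum_mul, Finset.mul_sum]
    refine Finset.sum_congr rfl fun S _ => ?_
    rw [← ch_mul, Pi.mul_apply]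
    ring
  rw [Finset.sum_congr rfl fun x _ => h1 x, Finset.sum_comm]
  have h2 : ∀ S : Finset (Fin n), ∑ x : Fin n → Bool, ((2 : ℝ) ^ n)⁻¹ * E S * ch (symmDiff S T) x =
      if S = T then E T else 0 := by
    intro S
    rw [← Finset.mul_sum, ch_sum]
    by_cases h : S = T
    · subst h
      rw [symmDiff_self, if_pos rfl, if_pos (by rfl)]
      field_simp
    · rw [if_neg h, if_neg, mul_zero]
      intro h3
      exact h (symmDiff_eq_bot.1 h3)
  rw [Finset.sum_congr rfl fun S _ => h2 S, Finset.sum_ite_eq' Finset.univ T, if_pos (Finset.mem_univ T)]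

end char

variable {n m M : ℕ} {B : Fin m → Finset (Fin n)} {s : Fin m → ℝ} {r D q : ℕ} {a : Fin M → Finset (Fin n)}

/-- span of the characters near to sums of at most `D` sets `a i` -/
noncomputable def zQ (D q : ℕ) (a : Fin M → Finset (Fin n)) : Submodule ℝ ((Fin n → Bool) → ℝ) :=
  Submodule.span ℝ {f | ∃ (S : Finset (Fin n)) (U : Finset (Fin M)), U.card ≤ D ∧ (symmDiff S (par a U)).card ≤ q ∧
    f = ch S}

theorem zQ_ch {q' k : ℕ} {T : Finset (Fin n)} (hT : T.card ≤ k) {g : (Fin n → Bool) → ℝ} (hg : g ∈ zQ D q' a) :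
    ch T * g ∈ zQ D (q' + k) a := by
  unfold zQ at hg
  induction hg using Submodule.span_induction with
  | mem f hf =>
    obtain ⟨S, U, hU, hS, rfl⟩ := hf
    refine Submodule.subset_span ⟨symmDiff T S, U, hU, ?_, ch_mul T S⟩
    rw [symmDiff_assoc]
    have := zcard_sd_le T (symmDiff S (par a U))
    omega
  | zero =>
    rw [mul_zero]
    exact Submodule.zero_mem _
  | add f g _ _ hf hg =>
    rw [mul_add]
    exact Submodule.add_mem _ hf hg
  | smul c f _ hf =>
    rw [mul_smul_comm]
    exact Submodule.smul_mem _ _ hf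

theorem zQ_mono {q' q'' : ℕ} (h : q' ≤ q'') : zQ D q' a ≤ zQ D q'' a := by
  refine Submodule.span_mono ?_
  rintro f ⟨S, U, hU, hS, rfl⟩
  exact ⟨S, U, hU, hS.trans h, rfl⟩

/-- the factor of a literal -/
noncomputable def zf (v : Fin n) (b : Bool) : (Fin n → Bool) → ℝ := fun x => if x v = b then 0 else 1

private theorem zf_eq (v : Fin n) (b : Bool) :
    zf v b = (1 / 2 : ℝ) • (1 + (if b = true then (1 : ℝ) else -1) • ch {v}) := by
  funext x
  unfold zf ch
  simp only [Pi.smul_apply, Pi.add_apply, Pi.one_apply, smul_eq_mul, Finset.prod_singleton]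
  cases hb : b <;> cases hx : x v <;> norm_num

private theorem zQ_zf {q' : ℕ} (v : Fin n) (b : Bool) {g : (Fin n → Bool) → ℝ} (hg : g ∈ zQ D q' a) :
    zf v b * g ∈ zQ D (q' + 1) a := by
  rw [zf_eq, smul_mul_assoc, add_mul, one_mul, smul_mul_assoc]
  refine Submodule.smul_mem _ _ (Submodule.add_mem _ (zQ_mono (Nat.le_succ _) hg) (Submodule.smul_mem _ _ ?_))
  exact zQ_ch (by rw [Finset.card_singleton]) hg

/-- the clause is false -/
noncomputable def zF (c : Cl n) : (Fin n → Bool) → ℝ := zf (c.1 0) (c.2 0) * (zf (c.1 1) (c.2 1) * zf (c.1 2) (c.2 2))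

private theorem zQ_zF {q' : ℕ} (c : Cl n) {g : (Fin n → Bool) → ℝ} (hg : g ∈ zQ D q' a) :
    zF c * g ∈ zQ D (q' + 3) a := by
  unfold zF
  rw [mul_assoc, mul_assoc]
  exact zQ_zf _ _ (zQ_zf _ _ (zQ_zf _ _ hg))

private theorem zF_true {c : Cl n} {x : Fin n → Bool} (h : ∃ i, x (c.1 i) = c.2 i) : zF c x = 0 := by
  obtain ⟨i, hi⟩ := h
  unfold zF zf
  simp only [Pi.mul_apply]
  fin_cases i
  · have h1 : x (c.1 0) = c.2 0 := hi
    rw [if_pos h1, zero_mul]
  · have h1 : x (c.1 1) = c.2 1 := hi
    rw [if_pos h1, zero_mul, mul_zero]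
  · have h1 : x (c.1 2) = c.2 2 := hi
    rw [if_pos h1, mul_zero, mul_zero]

private theorem zF_false {c : Cl n} {x : Fin n → Bool} (h : ¬ ∃ i, x (c.1 i) = c.2 i) : zF c x = 1 := by
  unfold zF zf
  simp only [Pi.mul_apply]
  rw [if_neg fun h1 => h ⟨0, h1⟩, if_neg fun h1 => h ⟨1, h1⟩, if_neg fun h1 => h ⟨2, h1⟩]
  norm_num

/-- (1) -/
theorem zL_mul (h : Wo B s r D q a) (h3 : ∀ j, (B j).card ≤ 3) {q' : ℕ} (hq : q' + 3 ≤ q) (j : Fin m)
    {g : (Fin n → Bool) → ℝ} (hg : g ∈ zQ D q' a) :
    zL (xE B s r) (ch (B j) * g) = s j * zL (xE B s r) g := by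
  have hB : par B {j} = B j := by
    ext x
    simp only [par, Finset.mem_filter, Finset.mem_univ, true_and, Finset.filter_singleton]
    by_cases hx : x ∈ B j
    · simp [hx]
    · simp [hx]
  unfold zQ at hg
  induction hg using Submodule.span_induction with
  | mem f hf =>
    obtain ⟨S, U, hU, hS, rfl⟩ := hf
    rw [ch_mul, zL_ch, zL_ch]
    have key := xE_mul h (I := {j}) (by rw [Finset.card_singleton]; exact h.one) (T := S)
      (fun J hJ hJT => h.abs J U hJ hU (by
        rw [hJT]
        omega))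
      (fun J hJ hJT => h.abs J U hJ hU (by
        rw [hJT, hB, symmDiff_assoc]
        have := zcard_sd_le (B j) (symmDiff S (par a U))
        have := h3 j
        omega))
    rw [hB, Finset.prod_singleton] at key
    exact key
  | zero => rw [mul_zero, map_zero, mul_zero]
  | add f g _ _ hf hg => rw [mul_add, map_add, map_add, hf, hg, mul_add]
  | smul c f _ hf =>
    rw [mul_smul_comm, map_smul, map_smul, hf, smul_eq_mul, smul_eq_mul]
    ring

/-- (2) -/
theorem zL_zF (h : Wo B s r D q a) {φ : Fin m → Cl n} (hB : ∀ j, B j ⊆ cvar (φ j)) (hs : ∀ j, s j = sS (φ j) (B j))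
    {q' : ℕ} (hq : q' + 6 ≤ q) (j : Fin m) {g : (Fin n → Bool) → ℝ} (hg : g ∈ zQ D q' a) :
    zL (xE B s r) (zF (φ j) * g) = 0 := by
  have h3 : ∀ j, (B j).card ≤ 3 := by
    intro j
    have h1 := Finset.card_le_card (hB j)
    have h2 : (cvar (φ j)).card = 3 := by
      unfold cvar
      rw [Finset.card_map, Finset.card_univ, Fintype.card_fin]
    omega
  have h1 := zL_mul h h3 (q' := q' + 3) (by omega) j (zQ_zF (φ j) hg)
  have h2 : ch (B j) * (zF (φ j) * g) = (-s j) • (zF (φ j) * g) := by
    funext x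
    simp only [Pi.mul_apply, Pi.smul_apply, smul_eq_mul]
    by_cases hx : ∃ i, x ((φ j).1 i) = (φ j).2 i
    · rw [zF_true hx]
      ring
    · rw [zF_false hx]
      have h4 : ch (B j) x = -s j := by
        rw [hs j]
        unfold sS ch
        rw [neg_neg]
        have h5 : B j = (univ.filter fun i : Fin 3 => (φ j).1 i ∈ B j).map (φ j).1 := by
          ext v
          simp only [Finset.mem_map, Finset.mem_filter, Finset.mem_univ, true_and]
          constructor
          · intro hv
            have h6 := hB j hv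
            unfold cvar at h6
            rw [Finset.mem_map] at h6
            obtain ⟨i, _, rfl⟩ := h6
            exact ⟨i, hv, rfl⟩
          · rintro ⟨i, hi, rfl⟩
            exact hi
        conv_lhs => rw [h5]
        rw [Finset.prod_map]
        refine Finset.prod_congr rfl fun i _ => ?_
        have h6 : ¬ x ((φ j).1 i) = (φ j).2 i := fun h7 => hx ⟨i, h7⟩
        cases h7 : (φ j).2 i <;> cases h8 : x ((φ j).1 i)
        · exact absurd (h8.trans h7.symm) h6
        · simp
        · simp
        · exact absurd (h8.trans h7.symm) h6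
      rw [h4]
  rw [h2, map_smul, smul_eq_mul] at h1
  rcases h.sgn j with h4 | h4 <;> rw [h4] at h1 <;> linarith

/-- (3) -/
theorem zL_zero (h : Wo B s r D q a) {φ : Fin m → Cl n} (hB : ∀ j, B j ⊆ cvar (φ j)) (hs : ∀ j, s j = sS (φ j) (B j))
    (J : Finset (Fin m)) : ∀ (q' : ℕ), q' + 3 * (J.card + 1) ≤ q → ∀ g ∈ zQ D q' a,
      (∀ x : Fin n → Bool, (∀ j ∈ J, ∃ i, x ((φ j).1 i) = (φ j).2 i) → g x = 0) → zL (xE B s r) g = 0 := by
  induction J using Finset.induction_on with
  | empty =>
    intro q' _ g _ hg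
    have h1 : g = 0 := by
      funext x
      exact hg x fun j hj => absurd hj (Finset.notMem_empty j)
    rw [h1, map_zero]
  | insert j J hj ih =>
    intro q' hq g hgQ hg
    rw [Finset.card_insert_of_notMem hj] at hq
    have h1 : g = zF (φ j) * g + (g - zF (φ j) * g) := by ring
    have h2 := zL_zF h hB hs (q' := q') (by omega) j hgQ
    have h3 := ih (q' + 3) (by omega) (g - zF (φ j) * g)
      (Submodule.sub_mem _ (zQ_mono (by omega) hgQ) (zQ_zF (φ j) hgQ)) (fun x hx => by
        simp only [Pi.sub_apply, Pi.mul_apply]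
        by_cases hxj : ∃ i, x ((φ j).1 i) = (φ j).2 i
        · have h4 : g x = 0 := hg x fun i hi => by
            rw [Finset.mem_insert] at hi
            rcases hi with rfl | hi
            · exact hxj
            · exact hx i hi
          rw [h4]
          ring
        · rw [zF_false hxj]
          ring)
    rw [h1, map_add, h2, h3, add_zero]

/-- the value of the atom: `1` for true -/
noncomputable def zX (a : Fin M → Finset (Fin n)) (i : Fin M) : (Fin n → Bool) → ℝ :=
  fun x => if px x (a i) = true then 1 else -1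

private theorem ch_px (S : Finset (Fin n)) (x : Fin n → Bool) : ch S x = if px x S = true then -1 else 1 := by
  have h1 : ch S x = (-1) ^ (S.filter fun v => x v = true).card := by
    unfold ch
    rw [Finset.prod_ite, Finset.prod_const_one, mul_one, Finset.prod_const]
  rw [h1]
  unfold px
  by_cases h2 : Odd (S.filter fun v => x v = true).card
  · rw [if_pos (by simpa using h2), h2.neg_one_pow]
  · rw [if_neg (by simpa using h2), (Nat.not_odd_iff_even.1 h2).neg_one_pow]

theorem zX_eq (i : Fin M) : zX a i = (-1 : ℝ) • ch (a i) := by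
  funext x
  unfold zX
  rw [Pi.smul_apply, ch_px, smul_eq_mul]
  split_ifs <;> norm_num

/-- the product of the values of the atoms in `U` -/
noncomputable def zXU (a : Fin M → Finset (Fin n)) (U : Finset (Fin M)) : (Fin n → Bool) → ℝ :=
  ((-1 : ℝ) ^ U.card) • ch (par a U)

private theorem par_one (i : Fin M) : par a {i} = a i := by
  ext x
  simp only [par, Finset.mem_filter, Finset.mem_univ, true_and, Finset.filter_singleton]
  by_cases hx : x ∈ a i
  · simp [hx]
  · simp [hx]

theorem zXU_sd (U : Finset (Fin M)) (i : Fin M) : zXU a (symmDiff U {i}) = zX a i * zXU a U := by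
  have h1 : (-1 : ℝ) ^ (symmDiff U {i}).card = (-1) ^ U.card * (-1) := by
    have h2 : (symmDiff U {i}).card + 2 * (U ∩ {i}).card = U.card + 1 := by
      have h3 : symmDiff U {i} = (U \ {i}) ∪ ({i} \ U) := by
        ext x; simp [Finset.mem_symmDiff]
      have h4 : Disjoint (U \ {i}) ({i} \ U) := by
        rw [Finset.disjoint_left]
        intro x hx hy
        simp only [Finset.mem_sdiff] at hx hy
        exact hx.2 hy.1
      have h5 : (U \ {i}).card + (U ∩ {i}).card = U.card := Finset.card_sdiff_add_card_inter U {i}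
      have h6 : ({i} \ U).card + ({i} ∩ U).card = ({i} : Finset (Fin M)).card := Finset.card_sdiff_add_card_inter {i} U
      rw [Finset.inter_comm {i} U, Finset.card_singleton] at h6
      rw [h3, Finset.card_union_of_disjoint h4]
      omega
    have h3 : (-1 : ℝ) ^ ((symmDiff U {i}).card + 2 * (U ∩ {i}).card) = (-1) ^ (U.card + 1) := by rw [h2]
    rw [pow_add, pow_mul, pow_succ] at h3
    norm_num at h3
    rw [h3]
    ring
  unfold zXU
  rw [zX_eq, par_symm, par_one, h1, ← ch_mul]
  funext x
  simp only [Pi.smul_apply, Pi.mul_apply, smul_eq_mul]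
  ring

/-- the clause is false -/
noncomputable def zfc (a : Fin M → Finset (Fin n)) : List (Fin M × Bool) → (Fin n → Bool) → ℝ
  | [] => 1
  | l :: c => (1 / 2 : ℝ) • (zfc a c - Pool.H6.QL.sg l.2 • (zX a l.1 * zfc a c))

/-- (4) -/
theorem pe_zL (c : List (Fin M × Bool)) : ∀ U : Finset (Fin M),
    pe (zE B s r a) c U = zL (xE B s r) (zfc a c * zXU a U) := by
  induction c with
  | nil =>
    intro U
    unfold zfc zXU
    rw [pe, one_mul, map_smul, zL_ch, smul_eq_mul]
    rfl
  | cons l c ih =>
    intro U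
    rw [pe, ih U, ih (symmDiff U {l.1}), zXU_sd]
    have h1 : zfc a (l :: c) * zXU a U = (1 / 2 : ℝ) • (zfc a c * zXU a U -
        Pool.H6.QL.sg l.2 • (zfc a c * (zX a l.1 * zXU a U))) := by
      rw [zfc]
      funext x
      simp only [Pi.smul_apply, Pi.mul_apply, Pi.sub_apply, smul_eq_mul]
      ring
    rw [h1, map_smul, map_sub, map_smul, smul_eq_mul, smul_eq_mul]
    ring

private theorem zfc_Q (c : List (Fin M × Bool)) : ∀ U : Finset (Fin M), U.card + c.length ≤ D →
    zfc a c * zXU a U ∈ zQ D 0 a := by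
  induction c with
  | nil =>
    intro U hU
    unfold zfc zXU
    rw [one_mul]
    refine Submodule.smul_mem _ _ (Submodule.subset_span ⟨par a U, U, by simpa using hU, ?_, rfl⟩)
    rw [symmDiff_self]
    exact Nat.zero_le _
  | cons l c ih =>
    intro U hU
    rw [List.length_cons] at hU
    have h1 : zfc a (l :: c) * zXU a U = (1 / 2 : ℝ) • (zfc a c * zXU a U -
        Pool.H6.QL.sg l.2 • (zfc a c * (zX a l.1 * zXU a U))) := by
      rw [zfc]
      funext x
      simp only [Pi.smul_apply, Pi.mul_apply, Pi.sub_apply, smul_eq_mul]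
      ring
    rw [h1, ← zXU_sd]
    refine Submodule.smul_mem _ _ (Submodule.sub_mem _ (ih U (by omega)) (Submodule.smul_mem _ _ (ih _ ?_)))
    have h2 := zcard_sd_le U {l.1}
    rw [Finset.card_singleton] at h2
    omega

private theorem zfc_zero (c : List (Fin M × Bool)) {x : Fin n → Bool} (h : ∃ l ∈ c, px x (a l.1) = l.2) :
    zfc a c x = 0 := by
  induction c with
  | nil =>
    obtain ⟨l, hl, _⟩ := h
    exact absurd hl (List.not_mem_nil)
  | cons l c ih =>
    rw [zfc]
    simp only [Pi.smul_apply, Pi.mul_apply, Pi.sub_apply, smul_eq_mul]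
    by_cases h1 : px x (a l.1) = l.2
    · have h2 : Pool.H6.QL.sg l.2 * zX a l.1 x = 1 := by
        unfold Pool.H6.QL.sg zX
        rw [h1]
        split_ifs <;> norm_num
      linear_combination (-(1 / 2 : ℝ) * zfc a c x) * h2
    · obtain ⟨l', hl', h2⟩ := h
      rw [List.mem_cons] at hl'
      rcases hl' with rfl | hl'
      · exact absurd h2 h1
      · rw [ih ⟨l', hl', h2⟩]
        ring

theorem zE_zero (h : Wo B s r D q a) {φ : Fin m → Cl n} (hB : ∀ j, B j ⊆ cvar (φ j))
    (hs : ∀ j, s j = sS (φ j) (B j)) {J : Finset (Fin m)} (hJ : 3 * (J.card + 1) ≤ q) {c : List (Fin M × Bool)}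
    {U : Finset (Fin M)} (hU : U.card + c.length ≤ D)
    (hc : ∀ x : Fin n → Bool, (∀ j ∈ J, ∃ i, x ((φ j).1 i) = (φ j).2 i) → ∃ l ∈ c, px x (a l.1) = l.2) :
    pe (zE B s r a) c U = 0 := by
  rw [pe_zL]
  refine zL_zero h hB hs J 0 (by omega) _ (zfc_Q c U hU) fun x hx => ?_
  rw [Pi.mul_apply, zfc_zero c (hc x hx), zero_mul]

end Pool.H63.ZX
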