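import Mathlib
import Pool.Agent.H63.ZX.Xgz

set_option autoImplicit false
set_option linter.unusedSectionVars false

/-!
# Module Z4 (THEOREM ZX): functions of few parities as variables

`Fnl Fl D L V`: a linear functional `L` on the functions on `{0, 1} ^ n` and spaces `V k` (functions of degree at most `k`):
`L (g * g) ≥ 0` for `g ∈ V k`, `2 k ≤ D`, and `L g = 0` if `g ∈ V D` vanishes at all points where `T` holds, `Fl T`. `pe_of`: then there is a
pseudo-expectation for functions of degree at most `w` as variables. `Few P ℓ`: `P` is a function of at most `ℓ` parities, `Jnt P ℓ`: of at most `ℓ`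
variables. `FolCl φ P ℓ`, `FolG Γ P ℓ`: the clauses of length at most `ℓ` in the functions `P i` which follow from at most `ℓ` clauses of `φ` (in `Γ`).
-/

namespace Pool.H63.ZX

open Finset Classical Pool.H6.QL Pool.Agent.H55.QT Pool.H86.XP

/-- `P` is a function of at most `ℓ` parities of the variables. -/
def Few {n : ℕ} (P : (Fin n → Bool) → Bool) (ℓ : ℝ) : Prop :=
  ∃ W : Finset (Finset (Fin n)), (W.card : ℝ) ≤ ℓ ∧ ∀ x y, (∀ S ∈ W, px x S = px y S) → P x = P y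

/-- The clauses of length at most `ℓ` in the functions `P i` which follow from at most `ℓ` clauses of `φ`. -/
def FolCl {n m M : ℕ} (φ : Fin m → Cl n) (P : Fin M → (Fin n → Bool) → Bool) (ℓ : ℝ) : Set (List (Fin M × Bool)) :=
  {c | (c.length : ℝ) ≤ ℓ ∧ ∃ J : Finset (Fin m), (J.card : ℝ) ≤ ℓ ∧
    ∀ x : Fin n → Bool, (∀ j ∈ J, ∃ i, x ((φ j).1 i) = (φ j).2 i) → ∃ l ∈ c, P l.1 x = l.2}

/-- `P` is a function of at most `ℓ` variables. -/
def Jnt {n : ℕ} (P : (Fin n → Bool) → Bool) (ℓ : ℝ) : Prop :=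
  ∃ W : Finset (Fin n), (W.card : ℝ) ≤ ℓ ∧ ∀ x y, (∀ v ∈ W, x v = y v) → P x = P y

/-- The clauses of length at most `ℓ` in the functions `P i` which follow from at most `ℓ` clauses in `Γ`. -/
def FolG {n M : ℕ} (Γ : Set (List (Fin n × Bool))) (P : Fin M → (Fin n → Bool) → Bool) (ℓ : ℝ) :
    Set (List (Fin M × Bool)) :=
  {c | (c.length : ℝ) ≤ ℓ ∧ ∃ J : Finset (List (Fin n × Bool)), (∀ l ∈ J, l ∈ Γ) ∧ (J.card : ℝ) ≤ ℓ ∧
    ∀ x : Fin n → Bool, (∀ l ∈ J, ∃ p ∈ l, x p.1 = p.2) → ∃ l ∈ c, P l.1 x = l.2}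

/-- `1` if `P x` is true, else `-1` -/
noncomputable def sf1 {n : ℕ} (P : (Fin n → Bool) → Bool) : (Fin n → Bool) → ℝ :=
  fun x => if P x = true then 1 else -1

/-- `T` says that at most `k` clauses of `φ` hold. -/
def FlA {n m : ℕ} (φ : Fin m → Cl n) (k : ℕ) (T : (Fin n → Bool) → Prop) : Prop :=
  ∃ J : Finset (Fin m), J.card ≤ k ∧ ∀ x, T x ↔ ∀ j ∈ J, ∃ i, x ((φ j).1 i) = (φ j).2 i

/-- `T` says that at most `k` clauses in `Γ` hold. -/
def FlG {n : ℕ} (Γ : Set (List (Fin n × Bool))) (k : ℕ) (T : (Fin n → Bool) → Prop) : Prop :=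
  ∃ J : Finset (List (Fin n × Bool)), (∀ l ∈ J, l ∈ Γ) ∧ J.card ≤ k ∧ ∀ x, T x ↔ ∀ l ∈ J, ∃ p ∈ l, x p.1 = p.2

structure Fnl {n : ℕ} (Fl : ((Fin n → Bool) → Prop) → Prop) (D : ℕ)
    (L : ((Fin n → Bool) → ℝ) →ₗ[ℝ] ℝ) (V : ℕ → Submodule ℝ ((Fin n → Bool) → ℝ)) : Prop where
  one : L 1 = 1
  one_mem : (1 : (Fin n → Bool) → ℝ) ∈ V 0
  mono : Monotone V
  mul : ∀ j k f g, f ∈ V j → g ∈ V k → f * g ∈ V (j + k)
  pos : ∀ k, 2 * k ≤ D → ∀ g ∈ V k, 0 ≤ L (g * g)
  zero : ∀ T, Fl T → ∀ g ∈ V D, (∀ x, T x → g x = 0) → L g = 0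

variable {n m M M' : ℕ} {Fl : ((Fin n → Bool) → Prop) → Prop} {D : ℕ}
  {L : ((Fin n → Bool) → ℝ) →ₗ[ℝ] ℝ} {V : ℕ → Submodule ℝ ((Fin n → Bool) → ℝ)}

theorem Fnl.prod (h : Fnl Fl D L V) {ι : Type} (s : Finset ι) (f : ι → (Fin n → Bool) → ℝ) (w : ℕ)
    (hf : ∀ i ∈ s, f i ∈ V w) : ∏ i ∈ s, f i ∈ V (s.card * w) := by
  induction s using Finset.induction_on with
  | empty =>
    rw [Finset.prod_empty, Finset.card_empty, Nat.zero_mul]
    exact h.one_mem
  | insert i s hi ih =>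
    rw [Finset.prod_insert hi, Finset.card_insert_of_notMem hi, Nat.add_mul, Nat.one_mul, Nat.add_comm]
    exact h.mul _ _ _ _ (hf i (mem_insert_self _ _)) (ih fun j hj => hf j (mem_insert_of_mem hj))

/-- functions of few functions of degree 1 have small degree -/
theorem Fnl.few (h : Fnl Fl D L V) {ι : Type} (b : ι → (Fin n → Bool) → Bool) (hb : ∀ k, sf1 (b k) ∈ V 1)
    (W : Finset ι) (P : (Fin n → Bool) → Bool)
    (hP : ∀ x y, (∀ k ∈ W, b k x = b k y) → P x = P y) : sf1 P ∈ V W.card := by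
  obtain ⟨u, hu⟩ : ∃ u : Finset ι → ℝ, ∀ T x, (∀ k ∈ W, (b k x = true ↔ k ∈ T)) → u T = sf1 P x := by
    refine ⟨fun T => if hT : ∃ x, ∀ k ∈ W, (b k x = true ↔ k ∈ T) then sf1 P hT.choose else 0, ?_⟩
    intro T x hx
    have hT : ∃ x, ∀ k ∈ W, (b k x = true ↔ k ∈ T) := ⟨x, hx⟩
    show (if hT : ∃ x, ∀ k ∈ W, (b k x = true ↔ k ∈ T) then sf1 P hT.choose else 0) = _
    rw [dif_pos hT]
    unfold sf1
    rw [hP hT.choose x fun k hk => ?_]
    rw [Bool.eq_iff_iff, hT.choose_spec k hk, hx k hk]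
  have key : sf1 P = ∑ T ∈ W.powerset, u T • ∏ k ∈ W, (fun x : Fin n → Bool => if (b k x = true ↔ k ∈ T) then (1 : ℝ) else 0) := by
    funext x
    rw [Finset.sum_apply]
    have e1 : ∀ T ∈ W.powerset, (u T • ∏ k ∈ W, (fun x : Fin n → Bool => if (b k x = true ↔ k ∈ T) then (1 : ℝ) else 0)) x =
        if T = W.filter (fun k => b k x = true) then sf1 P x else 0 := by
      intro T hT
      rw [mem_powerset] at hT
      rw [Pi.smul_apply, Finset.prod_apply, smul_eq_mul]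
      by_cases hTx : T = W.filter (fun k => b k x = true)
      · rw [if_pos hTx, Finset.prod_eq_one, mul_one, hu T x]
        · intro k hk
          rw [hTx, mem_filter]
          exact ⟨fun h1 => ⟨hk, h1⟩, fun h1 => h1.2⟩
        · intro k hk
          rw [if_pos]
          rw [hTx, mem_filter]
          exact ⟨fun h1 => ⟨hk, h1⟩, fun h1 => h1.2⟩
      · rw [if_neg hTx]
        have hex : ∃ k ∈ W, ¬ (b k x = true ↔ k ∈ T) := by
          by_contra hcon
          push Not at hcon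
          apply hTx
          ext k
          rw [mem_filter]
          constructor
          · intro hk
            exact ⟨hT hk, (hcon k (hT hk)).2 hk⟩
          · rintro ⟨hk, hk2⟩
            exact (hcon k hk).1 hk2
        obtain ⟨k, hk, hk2⟩ := hex
        rw [Finset.prod_eq_zero hk (if_neg hk2), mul_zero]
    rw [Finset.sum_congr rfl e1, Finset.sum_ite_eq' (s := W.powerset), if_pos]
    rw [mem_powerset]
    exact filter_subset _ _
  rw [key]
  refine Submodule.sum_mem _ fun T hT => Submodule.smul_mem _ _ ?_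
  have h1 := h.prod W (fun k => fun x : Fin n → Bool => if (b k x = true ↔ k ∈ T) then (1 : ℝ) else 0) 1 (fun k hk => ?_)
  · rw [Nat.mul_one] at h1
    exact h1
  · have h2 : (fun x : Fin n → Bool => if (b k x = true ↔ k ∈ T) then (1 : ℝ) else 0) =
        (1 / 2 : ℝ) • (1 : (Fin n → Bool) → ℝ) + (if k ∈ T then (1 / 2 : ℝ) else -1 / 2) • sf1 (b k) := by
      funext x
      simp only [Pi.add_apply, Pi.smul_apply, Pi.one_apply, smul_eq_mul, sf1]
      by_cases h3 : k ∈ T <;> by_cases h4 : b k x = true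
      · simp [h3, h4]
        norm_num
      · simp [h3, h4]
      · simp [h3, h4]
        norm_num
      · simp [h3, h4]
        norm_num
    rw [h2]
    exact Submodule.add_mem _ (Submodule.smul_mem _ _ (h.mono (Nat.zero_le 1) h.one_mem))
      (Submodule.smul_mem _ _ (hb k))

/-- the indicator function of: all literals of the clause are false -/
private noncomputable def fc (P : Fin M → (Fin n → Bool) → Bool) : List (Fin M × Bool) → (Fin n → Bool) → ℝ
  | [] => 1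
  | l :: c => (1 / 2 : ℝ) • (fc P c - Pool.H6.QL.sg l.2 • (fc P c * sf1 (P l.1)))

private theorem fc_zero (P : Fin M → (Fin n → Bool) → Bool) (c : List (Fin M × Bool)) (x : Fin n → Bool)
    (h : ∃ l ∈ c, P l.1 x = l.2) : fc P c x = 0 := by
  induction c with
  | nil =>
    obtain ⟨l, hl, -⟩ := h
    exact absurd hl List.not_mem_nil
  | cons l c ih =>
    show (1 / 2 : ℝ) * (fc P c x - Pool.H6.QL.sg l.2 * (fc P c x * sf1 (P l.1) x)) = 0
    obtain ⟨l', hl', h2⟩ := h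
    rcases List.mem_cons.1 hl' with rfl | hl'
    · unfold sf1 Pool.H6.QL.sg
      rw [h2]
      cases l'.2 <;> simp
    · rw [ih ⟨l', hl', h2⟩]
      ring

private theorem fc_mem (h : Fnl Fl D L V) {P : Fin M → (Fin n → Bool) → Bool} {w : ℕ} (hP : ∀ i, sf1 (P i) ∈ V w)
    (c : List (Fin M × Bool)) : fc P c ∈ V (c.length * w) := by
  induction c with
  | nil =>
    rw [List.length_nil, Nat.zero_mul]
    exact h.one_mem
  | cons l c ih =>
    rw [List.length_cons, Nat.add_mul, Nat.one_mul]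
    refine Submodule.smul_mem _ _ (Submodule.sub_mem _ (h.mono (Nat.le_add_right _ _) ih) (Submodule.smul_mem _ _ ?_))
    exact h.mul _ _ _ _ ih (hP _)

private theorem sf1_sq (P : (Fin n → Bool) → Bool) : sf1 P * sf1 P = 1 := by
  funext x
  show sf1 P x * sf1 P x = 1
  unfold sf1
  split_ifs <;> norm_num

private theorem prod_symm (P : Fin M → (Fin n → Bool) → Bool) (S T : Finset (Fin M)) :
    ∏ i ∈ symmDiff S T, sf1 (P i) = (∏ i ∈ S, sf1 (P i)) * ∏ i ∈ T, sf1 (P i) := by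
  have hsq : ∀ I : Finset (Fin M), (∏ j ∈ I, sf1 (P j)) * (∏ j ∈ I, sf1 (P j)) = 1 := by
    intro I
    rw [← Finset.prod_mul_distrib]
    exact Finset.prod_eq_one fun i _ => sf1_sq _
  have e1 : symmDiff S T = (S \ T) ∪ (T \ S) := by
    ext x; simp [Finset.mem_symmDiff]
  have e2 : Disjoint (S \ T) (T \ S) := by
    rw [Finset.disjoint_left]
    intro x hx hy
    simp only [Finset.mem_sdiff] at hx hy
    exact hx.2 hy.1
  have e3 : (∏ j ∈ S, sf1 (P j)) = (∏ j ∈ S \ T, sf1 (P j)) * ∏ j ∈ S ∩ T, sf1 (P j) := by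
    rw [← Finset.prod_union (Finset.disjoint_sdiff_inter S T), Finset.sdiff_union_inter]
  have e4 : (∏ j ∈ T, sf1 (P j)) = (∏ j ∈ T \ S, sf1 (P j)) * ∏ j ∈ S ∩ T, sf1 (P j) := by
    rw [Finset.inter_comm S T, ← Finset.prod_union (Finset.disjoint_sdiff_inter T S),
      Finset.sdiff_union_inter]
  rw [e1, Finset.prod_union e2, e3, e4]
  have := hsq (S ∩ T)
  calc (∏ j ∈ S \ T, sf1 (P j)) * ∏ j ∈ T \ S, sf1 (P j)
      = (∏ j ∈ S \ T, sf1 (P j)) * (∏ j ∈ T \ S, sf1 (P j)) * 1 := by ring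
    _ = (∏ j ∈ S \ T, sf1 (P j)) * (∏ j ∈ T \ S, sf1 (P j)) *
        ((∏ j ∈ S ∩ T, sf1 (P j)) * ∏ j ∈ S ∩ T, sf1 (P j)) := by rw [this]
    _ = _ := by ring

private theorem pe_fc (P : Fin M → (Fin n → Bool) → Bool) (c : List (Fin M × Bool)) (U : Finset (Fin M)) :
    pe (fun U => L (∏ i ∈ U, sf1 (P i))) c U = L (fc P c * ∏ i ∈ U, sf1 (P i)) := by
  induction c generalizing U with
  | nil =>
    show L (∏ i ∈ U, sf1 (P i)) = L (1 * ∏ i ∈ U, sf1 (P i))
    rw [one_mul]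
  | cons l c ih =>
    show (pe (fun U => L (∏ i ∈ U, sf1 (P i))) c U - Pool.H6.QL.sg l.2 *
      pe (fun U => L (∏ i ∈ U, sf1 (P i))) c (symmDiff U {l.1})) / 2 =
      L (((1 / 2 : ℝ) • (fc P c - Pool.H6.QL.sg l.2 • (fc P c * sf1 (P l.1)))) * ∏ i ∈ U, sf1 (P i))
    rw [ih, ih, prod_symm, Finset.prod_singleton]
    have e : ((1 / 2 : ℝ) • (fc P c - Pool.H6.QL.sg l.2 • (fc P c * sf1 (P l.1)))) * ∏ i ∈ U, sf1 (P i) =
        (1 / 2 : ℝ) • (fc P c * (∏ i ∈ U, sf1 (P i)) -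
          Pool.H6.QL.sg l.2 • (fc P c * ((∏ i ∈ U, sf1 (P i)) * sf1 (P l.1)))) := by
      rw [smul_mul_assoc, sub_mul, smul_mul_assoc]
      congr 2
      congr 1
      ring
    rw [e, map_smul, map_sub, map_smul]
    simp only [smul_eq_mul]
    ring

theorem pe_of (h : Fnl Fl D L V) {P : Fin M → (Fin n → Bool) → Bool} {w K : ℕ} (hP : ∀ i, sf1 (P i) ∈ V w)
    (hK : 2 * K * w ≤ D) {Γ : Set (List (Fin M × Bool))}
    (hΓ : ∀ c ∈ Γ, ∃ T, Fl T ∧ ∀ x, T x → ∃ l ∈ c, P l.1 x = l.2) : PE M K Γ := by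
  refine ⟨fun U => L (∏ i ∈ U, sf1 (P i)), ?_, ?_, ?_⟩
  · show L (∏ i ∈ (∅ : Finset (Fin M)), sf1 (P i)) = 1
    rw [Finset.prod_empty]
    exact h.one
  · intro p hp
    obtain ⟨g, hg⟩ : ∃ g : (Fin n → Bool) → ℝ, g = ∑ S : Finset (Fin M), p S • ∏ i ∈ S, sf1 (P i) := ⟨_, rfl⟩
    have hgV : g ∈ V (K * w) := by
      rw [hg]
      refine Submodule.sum_mem _ fun S _ => ?_
      by_cases hS : K < S.card
      · rw [hp S hS, zero_smul]
        exact Submodule.zero_mem _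
      · refine Submodule.smul_mem _ _ (h.mono ?_ (h.prod S _ w fun i _ => hP i))
        exact Nat.mul_le_mul_right _ (not_lt.1 hS)
    have h1 := h.pos (K * w) (by rw [← Nat.mul_assoc]; exact hK) g hgV
    refine h1.trans (le_of_eq ?_)
    rw [hg, Finset.sum_mul_sum, map_sum]
    refine Finset.sum_congr rfl fun S _ => ?_
    rw [map_sum]
    refine Finset.sum_congr rfl fun T _ => ?_
    show L ((p S • ∏ i ∈ S, sf1 (P i)) * p T • ∏ i ∈ T, sf1 (P i)) = p S * p T * L (∏ i ∈ symmDiff S T, sf1 (P i))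
    rw [prod_symm, smul_mul_smul_comm, map_smul, smul_eq_mul]
  · intro c hc U hU
    obtain ⟨T, hT, hTc⟩ := hΓ c hc
    rw [pe_fc]
    refine h.zero T hT _ (h.mono ?_ (h.mul _ _ _ _ (fc_mem h hP c) (h.prod U _ w fun i _ => hP i))) ?_
    · rw [← Nat.add_mul]
      exact (Nat.mul_le_mul_right _ (by omega)).trans hK
    · intro x hx
      show fc P c x * (∏ i ∈ U, sf1 (P i)) x = 0
      rw [fc_zero P c x (hTc x hx), zero_mul]

end Pool.H63.ZX
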