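import Mathlib
import Pool.Agent.H63.ZX.Jun
import Pool.Agent.H63.ZX.Zer

set_option autoImplicit false
set_option linter.unusedSectionVars false

/-!
# Module Z6 (THEOREM ZX): a pseudo-expectation for clauses as a functional on functions

`V k`: the span of the products `XX U` of at most `k` variables `X i` (`1` if `x i` is true, else `-1`), `L (XX U) = E U`. If `g` vanishes where the
clauses in `J` hold, then `L g = 0` by induction on `J`: `g = f_c g + (1 - f_c) g`, `f_c` the indicator function of: `c` is false.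
-/

namespace Pool.H63.ZX

open Finset Classical Pool.H6.QL Pool.Agent.H55.QT Pool.H86.XP

variable {n : ℕ}

private noncomputable def XX (U : Finset (Fin n)) : (Fin n → Bool) → ℝ := ∏ i ∈ U, sf1 (fun x : Fin n → Bool => x i)

private theorem XX_empty : XX (∅ : Finset (Fin n)) = 1 := by
  unfold XX
  rw [Finset.prod_empty]

private theorem XX_ch (U : Finset (Fin n)) : XX U = ((-1 : ℝ) ^ U.card) • ch U := by
  funext x
  unfold XX ch
  rw [Finset.prod_apply, Pi.smul_apply, smul_eq_mul, ← Finset.prod_const, ← Finset.prod_mul_distrib]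
  refine Finset.prod_congr rfl fun i _ => ?_
  unfold sf1
  split_ifs <;> norm_num

private theorem sf1_sq' (P : (Fin n → Bool) → Bool) : sf1 P * sf1 P = 1 := by
  funext x
  show sf1 P x * sf1 P x = 1
  unfold sf1
  split_ifs <;> norm_num

private theorem XX_mul (S T : Finset (Fin n)) : XX S * XX T = XX (symmDiff S T) := by
  have hsq : ∀ I : Finset (Fin n), XX I * XX I = 1 := by
    intro I
    unfold XX
    rw [← Finset.prod_mul_distrib]
    exact Finset.prod_eq_one fun i _ => sf1_sq' _
  have e1 : symmDiff S T = (S \ T) ∪ (T \ S) := by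
    ext x; simp [Finset.mem_symmDiff]
  have e2 : Disjoint (S \ T) (T \ S) := by
    rw [Finset.disjoint_left]
    intro x hx hy
    simp only [Finset.mem_sdiff] at hx hy
    exact hx.2 hy.1
  have e3 : XX S = XX (S \ T) * XX (S ∩ T) := by
    unfold XX
    rw [← Finset.prod_union (Finset.disjoint_sdiff_inter S T), Finset.sdiff_union_inter]
  have e4 : XX T = XX (T \ S) * XX (S ∩ T) := by
    unfold XX
    rw [Finset.inter_comm S T, ← Finset.prod_union (Finset.disjoint_sdiff_inter T S),
      Finset.sdiff_union_inter]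
  have e5 : XX (symmDiff S T) = XX (S \ T) * XX (T \ S) := by
    rw [e1]
    unfold XX
    rw [Finset.prod_union e2]
  rw [e5, e3, e4]
  calc XX (S \ T) * XX (S ∩ T) * (XX (T \ S) * XX (S ∩ T))
      = XX (S \ T) * XX (T \ S) * (XX (S ∩ T) * XX (S ∩ T)) := by ring
    _ = _ := by rw [hsq, mul_one]

/-- the functional -/
private noncomputable def Lf (E : Finset (Fin n) → ℝ) : ((Fin n → Bool) → ℝ) →ₗ[ℝ] ℝ :=
  zL fun S => (-1) ^ S.card * E S

private theorem Lf_XX (E : Finset (Fin n) → ℝ) (U : Finset (Fin n)) : Lf E (XX U) = E U := by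
  rw [XX_ch, map_smul]
  unfold Lf
  rw [zL_ch, smul_eq_mul, ← mul_assoc, ← pow_add, ← two_mul, pow_mul]
  norm_num

/-- functions of degree at most `k` -/
private noncomputable def Vf (n k : ℕ) : Submodule ℝ ((Fin n → Bool) → ℝ) :=
  Submodule.span ℝ {f | ∃ U : Finset (Fin n), U.card ≤ k ∧ f = XX U}

private theorem XX_mem {k : ℕ} {U : Finset (Fin n)} (hU : U.card ≤ k) : XX U ∈ Vf n k :=
  Submodule.subset_span ⟨U, hU, rfl⟩

private theorem Vf_mono : Monotone (Vf n) := by
  intro j k hjk
  refine Submodule.span_mono ?_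
  rintro f ⟨U, hU, rfl⟩
  exact ⟨U, hU.trans hjk, rfl⟩

private theorem Vf_mul (j k : ℕ) (f g : (Fin n → Bool) → ℝ) (hf : f ∈ Vf n j) (hg : g ∈ Vf n k) :
    f * g ∈ Vf n (j + k) := by
  unfold Vf at hf hg
  induction hf using Submodule.span_induction with
  | mem f hf =>
    obtain ⟨S, hS, rfl⟩ := hf
    induction hg using Submodule.span_induction with
    | mem g hg =>
      obtain ⟨T, hT, rfl⟩ := hg
      rw [XX_mul]
      refine XX_mem ?_
      have := zcard_sd_le S T
      omega
    | zero =>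
      rw [mul_zero]
      exact Submodule.zero_mem _
    | add g h _ _ hg hh =>
      rw [mul_add]
      exact Submodule.add_mem _ hg hh
    | smul c g _ hg =>
      rw [mul_smul_comm]
      exact Submodule.smul_mem _ _ hg
  | zero =>
    rw [zero_mul]
    exact Submodule.zero_mem _
  | add f h _ _ hf hh =>
    rw [add_mul]
    exact Submodule.add_mem _ hf hh
  | smul c f _ hf =>
    rw [smul_mul_assoc]
    exact Submodule.smul_mem _ _ hf

private theorem Vf_rep {k : ℕ} {g : (Fin n → Bool) → ℝ} (hg : g ∈ Vf n k) :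
    ∃ p : Finset (Fin n) → ℝ, (∀ S, k < S.card → p S = 0) ∧ g = ∑ S, p S • XX S := by
  unfold Vf at hg
  induction hg using Submodule.span_induction with
  | mem g hg =>
    obtain ⟨T, hT, rfl⟩ := hg
    refine ⟨fun S => if S = T then 1 else 0, ?_, ?_⟩
    · intro S hS
      show (if S = T then (1 : ℝ) else 0) = 0
      rw [if_neg]
      rintro rfl
      omega
    · rw [Finset.sum_eq_single T]
      · show XX T = (if T = T then (1 : ℝ) else 0) • XX T
        rw [if_pos rfl, one_smul]
      · intro S _ hS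
        show (if S = T then (1 : ℝ) else 0) • XX S = 0
        rw [if_neg hS, zero_smul]
      · intro h
        exact absurd (mem_univ T) h
  | zero =>
    refine ⟨fun _ => 0, fun _ _ => rfl, ?_⟩
    simp
  | add f g _ _ hf hg =>
    obtain ⟨p, hp, rfl⟩ := hf
    obtain ⟨p', hp', rfl⟩ := hg
    refine ⟨fun S => p S + p' S, fun S hS => ?_, ?_⟩
    · show p S + p' S = 0
      rw [hp S hS, hp' S hS, add_zero]
    · rw [← Finset.sum_add_distrib]
      exact Finset.sum_congr rfl fun S _ => (add_smul _ _ _).symm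
  | smul c g _ hg =>
    obtain ⟨p, hp, rfl⟩ := hg
    refine ⟨fun S => c * p S, fun S hS => ?_, ?_⟩
    · show c * p S = 0
      rw [hp S hS, mul_zero]
    · rw [Finset.smul_sum]
      exact Finset.sum_congr rfl fun S _ => smul_smul _ _ _

/-- the indicator function of: all literals of the clause are false -/
private noncomputable def gc : List (Fin n × Bool) → (Fin n → Bool) → ℝ
  | [] => 1
  | l :: c => (1 / 2 : ℝ) • (gc c - Pool.H6.QL.sg l.2 • (gc c * XX {l.1}))

private theorem gc_val (c : List (Fin n × Bool)) (x : Fin n → Bool) :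
    gc c x = if ∃ l ∈ c, x l.1 = l.2 then 0 else 1 := by
  induction c with
  | nil =>
    rw [if_neg]
    · rfl
    · rintro ⟨l, hl, -⟩
      exact absurd hl List.not_mem_nil
  | cons l c ih =>
    have hX : XX {l.1} x = if x l.1 = true then (1 : ℝ) else -1 := by
      unfold XX
      rw [Finset.prod_singleton]
      rfl
    show (1 / 2 : ℝ) * (gc c x - Pool.H6.QL.sg l.2 * (gc c x * XX {l.1} x)) = _
    rw [ih, hX]
    by_cases h1 : ∃ l' ∈ c, x l'.1 = l'.2
    · have h2 : ∃ l' ∈ l :: c, x l'.1 = l'.2 := by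
        obtain ⟨l', hl', h3⟩ := h1
        exact ⟨l', List.mem_cons_of_mem _ hl', h3⟩
      rw [if_pos h1, if_pos h2]
      ring
    · rw [if_neg h1]
      by_cases h3 : x l.1 = l.2
      · have h2 : ∃ l' ∈ l :: c, x l'.1 = l'.2 := ⟨l, List.mem_cons_self, h3⟩
        rw [if_pos h2, h3]
        unfold Pool.H6.QL.sg
        cases l.2 <;> simp
      · have h2 : ¬ ∃ l' ∈ l :: c, x l'.1 = l'.2 := by
          rintro ⟨l', hl', h4⟩
          rcases List.mem_cons.1 hl' with rfl | hl'
          · exact h3 h4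
          · exact h1 ⟨l', hl', h4⟩
        rw [if_neg h2]
        unfold Pool.H6.QL.sg
        cases h5 : l.2 <;> cases h6 : x l.1
        · rw [h5, h6] at h3
          exact absurd rfl h3
        · norm_num
        · norm_num
        · rw [h5, h6] at h3
          exact absurd rfl h3

private theorem gc_mem (c : List (Fin n × Bool)) : gc c ∈ Vf n c.length := by
  induction c with
  | nil =>
    show (1 : (Fin n → Bool) → ℝ) ∈ Vf n 0
    rw [← XX_empty]
    exact XX_mem (by simp)
  | cons l c ih =>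
    rw [List.length_cons]
    refine Submodule.smul_mem _ _ (Submodule.sub_mem _ (Vf_mono (Nat.le_succ _) ih) (Submodule.smul_mem _ _ ?_))
    exact Vf_mul _ _ _ _ ih (XX_mem (by simp))

private theorem pe_gc (E : Finset (Fin n) → ℝ) (c : List (Fin n × Bool)) (U : Finset (Fin n)) :
    pe E c U = Lf E (gc c * XX U) := by
  induction c generalizing U with
  | nil =>
    show E U = Lf E (1 * XX U)
    rw [one_mul, Lf_XX]
  | cons l c ih =>
    show (pe E c U - Pool.H6.QL.sg l.2 * pe E c (symmDiff U {l.1})) / 2 =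
      Lf E (((1 / 2 : ℝ) • (gc c - Pool.H6.QL.sg l.2 • (gc c * XX {l.1}))) * XX U)
    rw [ih, ih, ← XX_mul]
    have e : ((1 / 2 : ℝ) • (gc c - Pool.H6.QL.sg l.2 • (gc c * XX {l.1}))) * XX U =
        (1 / 2 : ℝ) • (gc c * XX U - Pool.H6.QL.sg l.2 • (gc c * (XX U * XX {l.1}))) := by
      rw [smul_mul_assoc, sub_mul, smul_mul_assoc]
      congr 2
      congr 1
      ring
    rw [e, map_smul, map_sub, map_smul]
    simp only [smul_eq_mul]
    ring

private theorem Lf_gc {K0 : ℕ} {G : Set (List (Fin n × Bool))} {E : Finset (Fin n) → ℝ}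
    (hE : ∀ c ∈ G, ∀ U : Finset (Fin n), U.card + c.length ≤ 2 * K0 → pe E c U = 0)
    {c : List (Fin n × Bool)} (hc : c ∈ G) {d : ℕ} (hd : d + c.length ≤ 2 * K0) {g : (Fin n → Bool) → ℝ}
    (hg : g ∈ Vf n d) : Lf E (gc c * g) = 0 := by
  unfold Vf at hg
  induction hg using Submodule.span_induction with
  | mem g hg =>
    obtain ⟨U, hU, rfl⟩ := hg
    rw [← pe_gc]
    exact hE c hc U (by omega)
  | zero =>
    rw [mul_zero, map_zero]
  | add f g _ _ hf hg =>
    rw [mul_add, map_add, hf, hg, add_zero]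
  | smul a g _ hg =>
    rw [mul_smul_comm, map_smul, hg, smul_zero]

private theorem Lf_zero {K0 l : ℕ} {G : Set (List (Fin n × Bool))} (hl : ∀ c ∈ G, c.length ≤ l) {E : Finset (Fin n) → ℝ}
    (hE : ∀ c ∈ G, ∀ U : Finset (Fin n), U.card + c.length ≤ 2 * K0 → pe E c U = 0)
    (J : Finset (List (Fin n × Bool))) (hJ : ∀ c ∈ J, c ∈ G) :
    ∀ (d : ℕ) (g : (Fin n → Bool) → ℝ), d + J.card * l ≤ 2 * K0 → g ∈ Vf n d →
      (∀ x, (∀ c ∈ J, ∃ p ∈ c, x p.1 = p.2) → g x = 0) → Lf E g = 0 := by
  induction J using Finset.induction_on with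
  | empty =>
    intro d g _ _ h0
    have h1 : g = 0 := by
      funext x
      exact h0 x fun c hc => absurd hc (Finset.notMem_empty c)
    rw [h1, map_zero]
  | insert c J hcJ ih =>
    intro d g hd hg h0
    have hcG : c ∈ G := hJ c (mem_insert_self _ _)
    have hcl := hl c hcG
    rw [Finset.card_insert_of_notMem hcJ, Nat.add_mul, Nat.one_mul] at hd
    have h1 : Lf E (gc c * g) = 0 := Lf_gc hE hcG (by omega) hg
    have h2 : Lf E ((1 - gc c) * g) = 0 := by
      refine ih (fun c' hc' => hJ c' (mem_insert_of_mem hc')) (d + l) _ (by omega) ?_ ?_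
      · rw [Nat.add_comm]
        refine Vf_mul _ _ _ _ (Submodule.sub_mem _ ?_ (Vf_mono hcl (gc_mem c))) hg
        rw [← XX_empty]
        exact XX_mem (by simp)
      · intro x hx
        show (1 - gc c x) * g x = 0
        rw [gc_val]
        by_cases h3 : ∃ p ∈ c, x p.1 = p.2
        · rw [h0 x (fun c' hc' => ?_), mul_zero]
          rcases mem_insert.1 hc' with rfl | hc'
          · exact h3
          · exact hx c' hc'
        · rw [if_neg h3, sub_self, zero_mul]
    have h3 : g = gc c * g + (1 - gc c) * g := by ring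
    rw [h3, map_add, h1, h2, add_zero]

theorem fnl_pe {n K0 l k D : ℕ} {G : Set (List (Fin n × Bool))} (h : PE n K0 G) (hl : ∀ c ∈ G, c.length ≤ l)
    (hD : D + (k + 1) * l ≤ 2 * K0) :
    ∃ (L : ((Fin n → Bool) → ℝ) →ₗ[ℝ] ℝ) (V : ℕ → Submodule ℝ ((Fin n → Bool) → ℝ)),
      Fnl (FlG G k) D L V ∧ ∀ i, sf1 (fun x : Fin n → Bool => x i) ∈ V 1 := by
  obtain ⟨E, hE0, hE1, hE2⟩ := h
  refine ⟨Lf E, Vf n, ?_, ?_⟩
  · refine ⟨?_, ?_, Vf_mono, Vf_mul, ?_, ?_⟩
    · rw [← XX_empty, Lf_XX, hE0]
    · rw [← XX_empty]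
      exact XX_mem (by simp)
    · intro j hj g hg
      obtain ⟨p, hp, rfl⟩ := Vf_rep hg
      have h1 := hE1 p fun S hS => hp S (by omega)
      refine h1.trans (le_of_eq ?_)
      rw [Finset.sum_mul_sum, map_sum]
      refine Finset.sum_congr rfl fun S _ => ?_
      rw [map_sum]
      refine Finset.sum_congr rfl fun T _ => ?_
      rw [smul_mul_smul_comm, XX_mul, map_smul, Lf_XX, smul_eq_mul]
    · rintro T ⟨J, hJ, hJk, hT⟩ g hg hg0
      refine Lf_zero hl hE2 J hJ D g ?_ hg fun x hx => hg0 x ((hT x).2 hx)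
      refine (Nat.add_le_add_left (Nat.mul_le_mul_right l (hJk.trans (Nat.le_succ k))) D).trans hD
  · intro i
    have h1 : sf1 (fun x : Fin n → Bool => x i) = XX {i} := by
      unfold XX
      rw [Finset.prod_singleton]
    rw [h1]
    exact XX_mem (by simp)

end Pool.H63.ZX
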