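import Mathlib
import Pool.Agent.H63.ZX.Jun
import Pool.Agent.H6.ZF.Par

set_option autoImplicit false
set_option linter.unusedSectionVars false

/-!
# Module Z5 (THEOREM ZX): the functional of the equations with isolated variables
-/

namespace Pool.H63.ZX

open Finset Classical Pool.H6.QL Pool.Agent.H55.QT Pool.H86.XP

theorem fnl_wo {n m M : ℕ} {B : Fin m → Finset (Fin n)} {s : Fin m → ℝ} {r D q : ℕ} {a : Fin M → Finset (Fin n)}
    (h : Wo B s r D q a) {φ : Fin m → Cl n} (hB : ∀ j, B j ⊆ cvar (φ j)) (hs : ∀ j, s j = sS (φ j) (B j)) {k : ℕ}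
    (hk : 3 * (k + 1) ≤ q) : ∃ (L : ((Fin n → Bool) → ℝ) →ₗ[ℝ] ℝ) (V : ℕ → Submodule ℝ ((Fin n → Bool) → ℝ)),
      Fnl (FlA φ k) D L V ∧ ∀ i, sf1 (fun x => px x (a i)) ∈ V 1 := by
  have hxg := zE_xg h
  refine ⟨zL (xE B s r), fun d => zQ d 0 a, ⟨?_, Pool.H6.ZF.vp_one a, Pool.H6.ZF.vp_mono a,
    fun j k f g hf hg => Pool.H6.ZF.vp_mul a j k f hf g hg, ?_, ?_⟩, Pool.H6.ZF.vl_par a⟩
  · rw [← ch_empty, zL_ch]
    have h1 := hxg.one
    unfold zE at h1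
    rwa [Finset.card_empty, pow_zero, one_mul, par_empty'] at h1
  · intro d hd g hg
    refine Pool.H6.ZF.vp_pos a (xE B s r) (d := d) (fun p hp => ?_) hg
    exact XG.pos hxg hd p hp
  · rintro T ⟨J, hJ, hT⟩ g hg hg0
    exact zL_zero h hB hs J 0 (by omega) g hg fun x hx => hg0 x ((hT x).2 hx)

end Pool.H63.ZX
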