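import Mathlib
import Pool.Agent.H86.XP.Rnd
import Pool.Agent.H86.XP.Ext
import Pool.Agent.H63.ZX.Xgz

set_option autoImplicit false
set_option linter.unusedSectionVars false

/-!
# Module Z3a (THEOREM ZX): the random choice of the isolated variables, for all products of at most `D` parities

`U₀` from `rnd` with `δ = c / 64` for the family of all `par a U`, `U.card ≤ D`; `B j = cvar (φ j) \ U₀`, `s j = sS (φ j) (B j)`, `r = R / 2`. `ext15`: `I.card ≤ 4 * (par B I).card` for
`I.card ≤ R`. If `par B I` has distance at most `q` from `par a U` then `par a U` has at most `q` elements in `U₀`, so at most `δ n` elements, so `I.card ≤ 4 * (δ n + q) ≤ r`.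
-/

namespace Pool.H63.ZX

open Finset Classical Pool.H6.QL Pool.Agent.H55.QT Pool.H86.XP Pool.H6.LD

private theorem rnz_card (M D n : ℕ) (a : Fin M → Finset (Fin n)) :
    ((univ.filter fun U : Finset (Fin M) => U.card ≤ D).image fun U => par a U).card ≤ (M + 1) ^ D := by
  refine Finset.card_image_le.trans ?_
  have h1 : (univ.filter fun U : Finset (Fin M) => U.card ≤ D) ⊆
      (univ : Finset (Fin D → Option (Fin M))).image fun f => univ.filter fun i => ∃ j, f j = some i := by
    intro U hU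
    rw [mem_filter] at hU
    obtain ⟨-, hU⟩ := hU
    rw [mem_image]
    obtain ⟨e, he⟩ : ∃ e : Fin U.card ≃ U, True := ⟨U.equivFin.symm, trivial⟩
    refine ⟨fun j => if h : (j : ℕ) < U.card then some (e ⟨j, h⟩ : Fin M) else none, mem_univ _, ?_⟩
    ext i
    simp only [mem_filter, mem_univ, true_and]
    constructor
    · rintro ⟨j, hj⟩
      split_ifs at hj with h
      rw [Option.some.injEq] at hj
      rw [← hj]
      exact (e ⟨j, h⟩).2
    · intro hi
      refine ⟨⟨e.symm ⟨i, hi⟩, lt_of_lt_of_le (e.symm ⟨i, hi⟩).2 hU⟩, ?_⟩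
      have h2 : ((⟨(e.symm ⟨i, hi⟩ : ℕ), lt_of_lt_of_le (e.symm ⟨i, hi⟩).2 hU⟩ : Fin D) : ℕ) < U.card :=
        (e.symm ⟨i, hi⟩).2
      rw [dif_pos h2]
      simp
  refine (Finset.card_le_card h1).trans (Finset.card_image_le.trans (le_of_eq ?_))
  rw [Finset.card_univ, Fintype.card_fun, Fintype.card_option, Fintype.card_fin, Fintype.card_fin]

private theorem rnz_sgn {n : ℕ} (c : Cl n) (S : Finset (Fin n)) : sS c S = 1 ∨ sS c S = -1 := by
  have h : ∀ T : Finset (Fin 3), (∏ i ∈ T, (if c.2 i = true then (1 : ℝ) else -1)) = 1 ∨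
      (∏ i ∈ T, (if c.2 i = true then (1 : ℝ) else -1)) = -1 := by
    intro T
    induction T using Finset.induction_on with
    | empty => left; simp
    | insert a T ha ih =>
      rw [Finset.prod_insert ha]
      split_ifs with h1
      · rcases ih with h2 | h2 <;> rw [h2] <;> norm_num
      · rcases ih with h2 | h2 <;> rw [h2] <;> norm_num
  unfold sS
  rcases h (univ.filter fun i : Fin 3 => c.1 i ∈ S) with h1 | h1 <;> rw [h1] <;> norm_num

theorem rnz {C c : ℝ} (hC : 0 ≤ C) (hc : 0 < c) : ∃ κ η : ℝ, 0 < κ ∧ 0 < η ∧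
    ∀ (n m : ℕ) (φ : Fin m → Cl n), Exp15 ⌊c * n⌋₊ φ → Tch C (fun j => cvar (φ j)) →
      ∀ (M D q : ℕ) (a : Fin M → Finset (Fin n)), 1 ≤ κ * n → (q : ℝ) ≤ κ * n →
        ((M : ℝ) + 1) ^ D < 2 ^ (η * n) →
        ∃ (B : Fin m → Finset (Fin n)) (s : Fin m → ℝ) (r : ℕ), Wo B s r D q a ∧ (∀ j, B j ⊆ cvar (φ j)) ∧
          ∀ j, s j = sS (φ j) (B j) := by
  obtain ⟨κ₀, η, hκ₀, hη, hr⟩ := rnd hC (δ := c / 64) (by positivity)
  refine ⟨min κ₀ (c / 64), η, lt_min hκ₀ (by positivity), hη, ?_⟩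
  intro n m φ hE hT M D q a h1 hq hM
  have hn0 : (0 : ℝ) ≤ n := Nat.cast_nonneg n
  obtain ⟨𝒮, h𝒮⟩ : ∃ 𝒮 : Finset (Finset (Fin n)),
    𝒮 = (univ.filter fun U : Finset (Fin M) => U.card ≤ D).image fun U => par a U := ⟨_, rfl⟩
  have hcard : (𝒮.card : ℝ) < 2 ^ (η * n) := by
    refine lt_of_le_of_lt ?_ hM
    rw [h𝒮]
    exact_mod_cast rnz_card M D n a
  have h3 : ∀ j, ((fun j => cvar (φ j)) j).card ≤ 3 := by
    intro j
    show (cvar (φ j)).card ≤ 3
    rw [cvar, Finset.card_map, Finset.card_univ, Fintype.card_fin]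
  obtain ⟨U₀, hS, hU₀⟩ := hr n m (fun j => cvar (φ j)) h3 hT 𝒮 hcard
  obtain ⟨R, hR⟩ : ∃ R : ℕ, R = ⌊c * n⌋₊ := ⟨_, rfl⟩
  rw [← hR] at hE
  have hκ1 : min κ₀ (c / 64) * n ≤ κ₀ * n := mul_le_mul_of_nonneg_right (min_le_left _ _) hn0
  have hκ2 : min κ₀ (c / 64) * n ≤ c / 64 * n := mul_le_mul_of_nonneg_right (min_le_right _ _) hn0
  have hcn : 64 ≤ c * n := by linarith
  have hR1 : (R : ℝ) ≤ c * n := by
    rw [hR]
    exact Nat.floor_le (by positivity)
  have hR2 : c * n < R + 1 := by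
    rw [hR]
    exact Nat.lt_floor_add_one _
  have hr2 : (R : ℝ) ≤ 2 * ((R / 2 : ℕ) : ℝ) + 1 := by
    have : R ≤ 2 * (R / 2) + 1 := by omega
    exact_mod_cast this
  have hx := ext15 hE hS
  refine ⟨fun j => cvar (φ j) \ U₀, fun j => sS (φ j) (cvar (φ j) \ U₀), R / 2, ?_, ?_, fun j => rfl⟩
  · refine ⟨?_, fun j => rnz_sgn _ _, ?_, ?_⟩
    · have : (63 : ℝ) < R := by linarith
      have h4 : 63 < R := by exact_mod_cast this
      omega
    · intro I hI hI0
      have h4 := hx I (by omega)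
      rw [hI0, Finset.card_empty, mul_zero] at h4
      exact Finset.card_eq_zero.1 (Nat.le_zero.1 h4)
    · intro I U hI hU hIU
      obtain ⟨P, hP⟩ : ∃ P : Finset (Fin n), P = par (fun j => cvar (φ j) \ U₀) I := ⟨_, rfl⟩
      obtain ⟨A, hA⟩ : ∃ A : Finset (Fin n), A = par a U := ⟨_, rfl⟩
      rw [← hP, ← hA] at hIU
      have h4 := hx I (by omega)
      rw [← hP] at h4
      have hPU : ∀ x ∈ P, x ∉ U₀ := by
        intro x hx hx0
        rw [hP, par, mem_filter] at hx
        have h5 : (I.filter fun j => x ∈ cvar (φ j) \ U₀) = ∅ := by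
          rw [Finset.filter_eq_empty_iff]
          intro j _ h6
          exact (mem_sdiff.1 h6).2 hx0
        have h6 := hx.2
        rw [h5, Finset.card_empty] at h6
        exact absurd h6 (by decide)
      have h5 : (A ∩ U₀).card ≤ q := by
        refine (Finset.card_le_card ?_).trans hIU
        intro x hx
        rw [mem_inter] at hx
        rw [Finset.mem_symmDiff]
        exact Or.inr ⟨hx.1, fun h => hPU x h hx.2⟩
      have hA𝒮 : A ∈ 𝒮 := by
        rw [h𝒮, mem_image]
        exact ⟨U, mem_filter.2 ⟨mem_univ _, hU⟩, hA.symm⟩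
      have h6 : (A.card : ℝ) ≤ c / 64 * n := by
        by_contra hcon
        push Not at hcon
        have h7 := hU₀ A hA𝒮 hcon
        have h8 : ((A ∩ U₀).card : ℝ) ≤ q := by exact_mod_cast h5
        linarith
      have h7 : P.card ≤ A.card + (symmDiff P A).card := by
        have h8 : P ⊆ A ∪ symmDiff P A := by
          intro x hx
          rw [mem_union, Finset.mem_symmDiff]
          by_cases hxA : x ∈ A
          · exact Or.inl hxA
          · exact Or.inr (Or.inl ⟨hx, hxA⟩)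
        exact (Finset.card_le_card h8).trans (Finset.card_union_le _ _)
      have h8 : (P.card : ℝ) ≤ A.card + q := by
        have : P.card ≤ A.card + q := h7.trans (Nat.add_le_add_left hIU _)
        exact_mod_cast this
      have h9 : (I.card : ℝ) ≤ 4 * P.card := by exact_mod_cast h4
      have h10 : (I.card : ℝ) ≤ ((R / 2 : ℕ) : ℝ) := by linarith
      exact_mod_cast h10
  · intro j
    exact Finset.sdiff_subset

end Pool.H63.ZX
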