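import Mathlib
import Pool.Agent.H6.LE.Tcp
import Pool.Agent.H55.QT.RFin
import Pool.Agent.H86.XP.Exf
import Pool.Agent.H63.ZS.Rn3
import Pool.Agent.H63.ZX.Zer
import Pool.Agent.H63.ZX.Rnz

set_option autoImplicit false
set_option linter.unusedSectionVars false

/-!
# Module Z3b (THEOREM ZX): random 3-CNFs are hard for Frege systems over parities of any length
-/

namespace Pool.H63.ZX

open Finset Classical Pool.H6.QL Pool.Agent.H55.QT Pool.H86.XP Pool.H6.LD Pool.Agent.H3.Frg Pool.Agent.H3.Frg2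
  Pool.Agent.H3.Frg4 Pool.Agent.H81.QG Pool.H63.ZS

private theorem zx_sat {Δ n : ℕ} (hΔ : 6 ≤ Δ) :
    ((univ.filter fun φ : Fin (Δ * n) → Cl n => Sat φ).card : ℝ) ≤
      (9 / 10 : ℝ) ^ n * Fintype.card (Fin (Δ * n) → Cl n) := by
  have h1 := card_sat (n := n) (m := Δ * n)
  obtain ⟨A, hA⟩ : ∃ A, A = (univ.filter fun φ : Fin (Δ * n) → Cl n => Sat φ).card := ⟨_, rfl⟩
  obtain ⟨T, hT⟩ : ∃ T, T = Fintype.card (Fin (Δ * n) → Cl n) := ⟨_, rfl⟩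
  rw [← hA, ← hT] at h1 ⊢
  have h2 : (8 : ℝ) ^ (Δ * n) * A ≤ 2 ^ n * 7 ^ (Δ * n) * T := by exact_mod_cast h1
  have h3 : (A : ℝ) ≤ (2 ^ n * (7 / 8 : ℝ) ^ (Δ * n)) * T := by
    have h8 : (0 : ℝ) < 8 ^ (Δ * n) := by positivity
    have e1 : (2 ^ n * (7 / 8 : ℝ) ^ (Δ * n)) * T = 2 ^ n * 7 ^ (Δ * n) * T / 8 ^ (Δ * n) := by
      rw [div_pow]
      ring
    rw [e1, le_div_iff₀ h8]
    linarith
  refine h3.trans ?_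
  refine mul_le_mul_of_nonneg_right ?_ (Nat.cast_nonneg _)
  rw [pow_mul, ← mul_pow]
  refine pow_le_pow_left₀ (by positivity) ?_ n
  have h4 : (7 / 8 : ℝ) ^ Δ ≤ (7 / 8 : ℝ) ^ 6 :=
    pow_le_pow_of_le_one (by norm_num) (by norm_num) hΔ
  have h5 : (7 / 8 : ℝ) ^ 6 ≤ 9 / 20 := by norm_num
  linarith

/-- eventually `n ^ b ≥ C` -/
private theorem ev_ge {b : ℝ} (hb : 0 < b) (C : ℝ) : ∃ n0 : ℕ, ∀ n : ℕ, n0 ≤ n → C ≤ (n : ℝ) ^ b := by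
  have ht : Filter.Tendsto (fun n : ℕ => (n : ℝ) ^ b) Filter.atTop Filter.atTop :=
    (tendsto_rpow_atTop hb).comp tendsto_natCast_atTop_atTop
  exact Filter.eventually_atTop.1 (ht.eventually_ge_atTop C)

/-- the numbers -/
private theorem zx_num {κ η δ : ℝ} (hκ : 0 < κ) (hη : 0 < η) (hδ : 0 < δ) (hδ8 : δ ≤ 1 / 8) : ∃ n0 : ℕ, ∀ n : ℕ, n0 ≤ n →
    1 ≤ n ∧ 1 ≤ κ * n ∧ ((3 * (⌊(n : ℝ) ^ δ⌋₊ + 1) : ℕ) : ℝ) ≤ κ * n ∧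
      (n : ℝ) ^ (1 - 3 * δ) ≤ (⌊(n : ℝ) ^ (1 - 2 * δ)⌋₊ : ℝ) ∧
      ∀ M : ℕ, (M : ℝ) ≤ 2 ^ ((n : ℝ) ^ δ) → ((M : ℝ) + 1) ^ (2 * ⌊(n : ℝ) ^ (1 - 2 * δ)⌋₊) < 2 ^ (η * n) := by
  obtain ⟨n1, h1⟩ := exists_nat_ge (1 / κ)
  obtain ⟨n2, h2⟩ := ev_ge (b := 1 - δ) (by linarith) (6 / κ)
  obtain ⟨n3, h3⟩ := ev_ge hδ 2
  obtain ⟨n4, h4⟩ := ev_ge hδ (5 / η)
  refine ⟨n1 + n2 + n3 + n4 + 1, fun n hn => ?_⟩
  have hn0 : 1 ≤ n := by omega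
  have hn1 : (1 : ℝ) ≤ n := by exact_mod_cast hn0
  have hnp : (0 : ℝ) < n := by linarith
  have a1 : 1 ≤ κ * n := by
    have h5 : 1 / κ ≤ n := h1.trans (by exact_mod_cast (by omega : n1 ≤ n))
    rw [div_le_iff₀ hκ] at h5
    linarith
  have a2 := h2 n (by omega)
  have a3 := h3 n (by omega)
  have a4 := h4 n (by omega)
  have e1 : (1 : ℝ) ≤ (n : ℝ) ^ δ := by linarith
  have e2 : (n : ℝ) ^ δ * (n : ℝ) ^ (1 - δ) = n := by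
    rw [← Real.rpow_add hnp]
    have : δ + (1 - δ) = 1 := by ring
    rw [this, Real.rpow_one]
  refine ⟨hn0, a1, ?_, ?_, ?_⟩
  · have f1 : (⌊(n : ℝ) ^ δ⌋₊ : ℝ) ≤ (n : ℝ) ^ δ := Nat.floor_le (by positivity)
    push_cast
    have f2 : 3 * ((⌊(n : ℝ) ^ δ⌋₊ : ℝ) + 1) ≤ 6 * (n : ℝ) ^ δ := by linarith
    have f3 : 6 ≤ κ * (n : ℝ) ^ (1 - δ) := by
      rw [div_le_iff₀ hκ] at a2
      linarith
    have f4 : 6 * (n : ℝ) ^ δ ≤ κ * (n : ℝ) ^ (1 - δ) * (n : ℝ) ^ δ := by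
      gcongr
    have f5 : κ * (n : ℝ) ^ (1 - δ) * (n : ℝ) ^ δ = κ * n := by
      rw [mul_assoc, mul_comm ((n : ℝ) ^ (1 - δ)), e2]
    linarith
  · have f1 : (n : ℝ) ^ (1 - 2 * δ) = (n : ℝ) ^ (1 - 3 * δ) * (n : ℝ) ^ δ := by
      rw [← Real.rpow_add hnp]
      congr 1
      ring
    have f2 : (1 : ℝ) ≤ (n : ℝ) ^ (1 - 3 * δ) := Real.one_le_rpow hn1 (by linarith)
    have f3 : (n : ℝ) ^ (1 - 2 * δ) < ⌊(n : ℝ) ^ (1 - 2 * δ)⌋₊ + 1 := Nat.lt_floor_add_one _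
    have f4 : (n : ℝ) ^ (1 - 3 * δ) * 2 ≤ (n : ℝ) ^ (1 - 3 * δ) * (n : ℝ) ^ δ := by gcongr
    linarith
  · intro M hM
    have g1 : (M : ℝ) + 1 ≤ 2 ^ ((n : ℝ) ^ δ + 1) := by
      have g2 : (1 : ℝ) ≤ 2 ^ ((n : ℝ) ^ δ) := Real.one_le_rpow (by norm_num) (by positivity)
      rw [Real.rpow_add (by norm_num), Real.rpow_one]
      linarith
    have g3 : ((M : ℝ) + 1) ^ (2 * ⌊(n : ℝ) ^ (1 - 2 * δ)⌋₊) ≤
        (2 ^ ((n : ℝ) ^ δ + 1)) ^ (2 * ⌊(n : ℝ) ^ (1 - 2 * δ)⌋₊) :=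
      pow_le_pow_left₀ (by positivity) g1 _
    refine lt_of_le_of_lt g3 ?_
    rw [← Real.rpow_natCast, ← Real.rpow_mul (by norm_num)]
    refine Real.rpow_lt_rpow_of_exponent_lt (by norm_num) ?_
    push_cast
    have g4 : (⌊(n : ℝ) ^ (1 - 2 * δ)⌋₊ : ℝ) ≤ (n : ℝ) ^ (1 - 2 * δ) := Nat.floor_le (by positivity)
    have g5 : ((n : ℝ) ^ δ + 1) * (2 * (⌊(n : ℝ) ^ (1 - 2 * δ)⌋₊ : ℝ)) ≤
        (2 * (n : ℝ) ^ δ) * (2 * (n : ℝ) ^ (1 - 2 * δ)) := by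
      gcongr
      linarith
    have g6 : (2 * (n : ℝ) ^ δ) * (2 * (n : ℝ) ^ (1 - 2 * δ)) = 4 * (n : ℝ) ^ (1 - δ) := by
      have : (n : ℝ) ^ (1 - δ) = (n : ℝ) ^ δ * (n : ℝ) ^ (1 - 2 * δ) := by
        rw [← Real.rpow_add hnp]
        congr 1
        ring
      rw [this]
      ring
    have g7 : 5 ≤ η * (n : ℝ) ^ δ := by
      rw [div_le_iff₀ hη] at a4
      linarith
    have g8 : (0 : ℝ) < (n : ℝ) ^ (1 - δ) := by positivity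
    have g9 : η * n = η * (n : ℝ) ^ δ * (n : ℝ) ^ (1 - δ) := by
      rw [mul_assoc, e2]
    calc ((n : ℝ) ^ δ + 1) * (2 * (⌊(n : ℝ) ^ (1 - 2 * δ)⌋₊ : ℝ)) ≤ 4 * (n : ℝ) ^ (1 - δ) := by
          rw [← g6]
          exact g5
      _ < 5 * (n : ℝ) ^ (1 - δ) := by linarith
      _ ≤ η * (n : ℝ) ^ δ * (n : ℝ) ^ (1 - δ) := by gcongr
      _ = η * n := g9.symm

theorem zx (H : Hd3) {Δ : ℕ} (hΔ : 6 ≤ Δ) {e : ℝ} (he : 0 < e) : ∃ δ : ℝ, 0 < δ ∧ ∃ n0 : ℕ, ∀ n : ℕ, n0 ≤ n →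
    ((univ.filter fun φ : Fin (Δ * n) → Cl n =>
      ¬ (¬ Sat φ ∧ ∀ (M : ℕ) (a : Fin M → Finset (Fin n)), (M : ℝ) ≤ 2 ^ ((n : ℝ) ^ δ) →
        Hard3 (ParCl φ a ((n : ℝ) ^ δ)) (n : ℝ) e δ)).card : ℝ) ≤
      e * Fintype.card (Fin (Δ * n) → Cl n) := by
  obtain ⟨e', he'⟩ : ∃ e', e' = min (e / 2) (1 / 2) := ⟨_, rfl⟩
  have he0 : 0 < e' := by
    rw [he']
    exact lt_min (by linarith) (by norm_num)
  have he1 : e' ≤ 1 / 2 := by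
    rw [he']
    exact min_le_right _ _
  have he2 : e' ≤ e / 2 := by
    rw [he']
    exact min_le_left _ _
  obtain ⟨δ', hδ', K0, hK0⟩ := H e' he0
  obtain ⟨c, hc0, hc1, hexf⟩ := exf (by omega : 1 ≤ Δ)
  obtain ⟨C, hC0, htcp⟩ := tcp (by omega : 1 ≤ Δ)
  obtain ⟨κ, η, hκ, hη, hrnz⟩ := rnz hC0.le hc0
  obtain ⟨δ, hδd⟩ : ∃ δ, δ = min (min (δ' / 2) (e / 24)) (1 / 8) := ⟨_, rfl⟩
  have hδ0 : 0 < δ := by
    rw [hδd]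
    exact lt_min (lt_min (by linarith) (by linarith)) (by norm_num)
  have hδ1 : δ ≤ δ' / 2 := by
    rw [hδd]
    exact (min_le_left _ _).trans (min_le_left _ _)
  have hδ2 : δ ≤ e / 24 := by
    rw [hδd]
    exact (min_le_left _ _).trans (min_le_right _ _)
  have hδ3 : δ ≤ 1 / 8 := by
    rw [hδd]
    exact min_le_right _ _
  obtain ⟨n6, hn6⟩ := zx_num hκ hη hδ0 hδ3
  have he3 : 0 < e / 3 := by positivity
  obtain ⟨n1, hn1⟩ := exists_pow_lt_of_lt_one (y := (9 / 10 : ℝ)) he3 (by norm_num)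
  obtain ⟨n3, hn3⟩ := hexf (e / 3) he3
  obtain ⟨n4, hn4⟩ := htcp (e / 3) he3
  obtain ⟨n5, hn5⟩ := ev_ge (b := 1 - 3 * δ) (by linarith) (K0 : ℝ)
  refine ⟨δ, hδ0, n1 + n3 + n4 + n5 + n6 + 1, fun n hn => ?_⟩
  obtain ⟨hn0, hκn, hq, hKn, hM⟩ := hn6 n (by omega)
  have hnr : (1 : ℝ) ≤ n := by exact_mod_cast hn0
  have hn1' : n1 ≤ n := by omega
  obtain ⟨K, hK⟩ : ∃ K, K = ⌊(n : ℝ) ^ (1 - 2 * δ)⌋₊ := ⟨_, rfl⟩
  rw [← hK] at hKn hM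
  have hKK : K0 ≤ K := by
    have h1 := hn5 n (by omega)
    exact_mod_cast h1.trans hKn
  have hx1 : (1 : ℝ) ≤ (n : ℝ) ^ (1 - 3 * δ) := Real.one_le_rpow hnr (by linarith)
  have hK1 : (1 : ℝ) ≤ K := hx1.trans hKn
  have hpow : ∀ b b' : ℝ, 0 ≤ b → b' ≤ (1 - 3 * δ) * b → (n : ℝ) ^ b' ≤ (K : ℝ) ^ b := by
    intro b b' hb hb'
    calc (n : ℝ) ^ b' ≤ (n : ℝ) ^ ((1 - 3 * δ) * b) := Real.rpow_le_rpow_of_exponent_le hnr hb'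
      _ = ((n : ℝ) ^ (1 - 3 * δ)) ^ b := Real.rpow_mul (by positivity) _ _
      _ ≤ (K : ℝ) ^ b := Real.rpow_le_rpow (by positivity) hKn hb
  have p1 : (n : ℝ) ^ δ ≤ (K : ℝ) ^ δ' := hpow _ _ hδ'.le (by nlinarith)
  have p2 : (n : ℝ) ^ (2 - e) ≤ (K : ℝ) ^ (2 - e') := hpow _ _ (by linarith) (by nlinarith)
  have p3 : (n : ℝ) ^ (4 - e) ≤ (K : ℝ) ^ (4 - e') := hpow _ _ (by linarith) (by nlinarith)
  have hex := hn3 n (by omega)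
  have hsat := zx_sat (n := n) hΔ
  have hbal := hn4 n (by omega)
  have hsub : (univ.filter fun φ : Fin (Δ * n) → Cl n =>
      ¬ (¬ Sat φ ∧ ∀ (M : ℕ) (a : Fin M → Finset (Fin n)), (M : ℝ) ≤ 2 ^ ((n : ℝ) ^ δ) →
        Hard3 (ParCl φ a ((n : ℝ) ^ δ)) (n : ℝ) e δ)) ⊆
      ((univ.filter fun φ : Fin (Δ * n) → Cl n => Sat φ) ∪
      (univ.filter fun φ : Fin (Δ * n) → Cl n => ¬ Exp15 ⌊c * n⌋₊ φ)) ∪
      (univ.filter fun φ : Fin (Δ * n) → Cl n => ¬ Tch C (fun j => cvar (φ j))) := by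
    intro φ hφ
    rw [mem_filter] at hφ
    rw [mem_union, mem_union, mem_filter, mem_filter, mem_filter]
    by_contra hcon
    refine hφ.2 ⟨fun hs => hcon (Or.inl (Or.inl ⟨mem_univ _, hs⟩)), ?_⟩
    have h1 : Exp15 ⌊c * n⌋₊ φ := by
      by_contra h2
      exact hcon (Or.inl (Or.inr ⟨mem_univ _, h2⟩))
    have h2 : Tch C (fun j => cvar (φ j)) := by
      by_contra h3
      exact hcon (Or.inr ⟨mem_univ _, h3⟩)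
    intro M a hMn
    obtain ⟨B, s, r, -, hW, hB, hs⟩ := hrnz n (Δ * n) φ h1 h2 M (2 * K) (3 * (⌊(n : ℝ) ^ δ⌋₊ + 1)) a hq hκn (hM M hMn)
    have hPE : PE M K (ParCl φ a ((n : ℝ) ^ δ)) := by
      refine ⟨zE B s r a, (zE_xg hW).one, fun p hp => XG.pos (zE_xg hW) le_rfl p hp, ?_⟩
      rintro l ⟨-, J, hJ, hl⟩ U hU
      refine zE_zero hW hB hs (J := J) ?_ hU hl
      exact Nat.mul_le_mul_left _ (Nat.add_le_add_right (Nat.le_floor hJ) 1)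
    have hH := hK0 M K (ParCl φ a ((n : ℝ) ^ δ)) hKK hPE (by
      rintro l ⟨hl, -⟩
      exact hl.trans p1)
    exact hard3_mono hH p1 p2 p3
  obtain ⟨W, hW⟩ : ∃ W, W = Fintype.card (Fin (Δ * n) → Cl n) := ⟨_, rfl⟩
  rw [← hW] at hex hsat hbal ⊢
  have hW0 : (0 : ℝ) ≤ W := Nat.cast_nonneg _
  have h9 : (9 / 10 : ℝ) ^ n ≤ e / 3 :=
    (pow_le_pow_of_le_one (by norm_num) (by norm_num) hn1').trans hn1.le
  have hcard := ((card_le_card hsub).trans (card_union_le _ _)).trans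
    (Nat.add_le_add_right (card_union_le _ _) _)
  have hcard' := (Nat.cast_le (α := ℝ)).2 hcard
  push_cast at hcard'
  refine hcard'.trans ?_
  have h6 : (9 / 10 : ℝ) ^ n * W ≤ e / 3 * W := mul_le_mul_of_nonneg_right h9 hW0
  linarith

end Pool.H63.ZX
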