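import Mathlib
import Pool.Agent.H6.LE.Tcp
import Pool.Agent.H55.QT.RFin
import Pool.Agent.H86.XP.Exf
import Pool.Agent.H63.ZS.Rn3
import Pool.Agent.H63.ZX.Fnw
import Pool.Agent.H63.ZX.Fng
import Pool.Agent.H63.ZX.Rnz

set_option autoImplicit false
set_option linter.unusedSectionVars false

/-!
# Final theorems (THEOREM ZX): Frege systems over functions of few parities (random 3-CNFs), over functions of few variables (all pseudo-expectations)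
-/

namespace Pool.H63.ZX

open Finset Classical Pool.H6.QL Pool.Agent.H55.QT Pool.H86.XP Pool.H6.LD Pool.Agent.H3.Frg Pool.Agent.H3.Frg2
  Pool.Agent.H3.Frg4 Pool.Agent.H81.QG Pool.H63.ZS

private theorem zx_sat {Δ n : ℕ} (hΔ : 6 ≤ Δ) :
    ((univ.filter fun φ : Fin (Δ * n) → Cl n => Sat φ).card : ℝ) ≤
      (9 / 10 : ℝ) ^ n * Fintype.card (Fin (Δ * n) → Cl n) := by
  have h1 := card_sat (n := n) (m := Δ * n)
  obtain ⟨A, hA⟩ : ∃ A, A = (univ.filter fun φ : Fin (Δ * n) → Cl n => Sat φ).card := ⟨_, rfl⟩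
  obtain ⟨T, hT⟩ : ∃ T, T = Fintype.card (Fin (Δ * n) → Cl n) := ⟨_, rfl⟩
  rw [← hA, ← hT] at h1 ⊢
  have h2 : (8 : ℝ) ^ (Δ * n) * A ≤ 2 ^ n * 7 ^ (Δ * n) * T := by exact_mod_cast h1
  have h3 : (A : ℝ) ≤ (2 ^ n * (7 / 8 : ℝ) ^ (Δ * n)) * T := by
    have h8 : (0 : ℝ) < 8 ^ (Δ * n) := by positivity
    have e1 : (2 ^ n * (7 / 8 : ℝ) ^ (Δ * n)) * T = 2 ^ n * 7 ^ (Δ * n) * T / 8 ^ (Δ * n) := by
      rw [div_pow]
      ring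
    rw [e1, le_div_iff₀ h8]
    linarith
  refine h3.trans ?_
  refine mul_le_mul_of_nonneg_right ?_ (Nat.cast_nonneg _)
  rw [pow_mul, ← mul_pow]
  refine pow_le_pow_left₀ (by positivity) ?_ n
  have h4 : (7 / 8 : ℝ) ^ Δ ≤ (7 / 8 : ℝ) ^ 6 :=
    pow_le_pow_of_le_one (by norm_num) (by norm_num) hΔ
  have h5 : (7 / 8 : ℝ) ^ 6 ≤ 9 / 20 := by norm_num
  linarith

/-- eventually `n ^ b ≥ C` -/
private theorem ev_ge {b : ℝ} (hb : 0 < b) (C : ℝ) : ∃ n0 : ℕ, ∀ n : ℕ, n0 ≤ n → C ≤ (n : ℝ) ^ b := by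
  have ht : Filter.Tendsto (fun n : ℕ => (n : ℝ) ^ b) Filter.atTop Filter.atTop :=
    (tendsto_rpow_atTop hb).comp tendsto_natCast_atTop_atTop
  exact Filter.eventually_atTop.1 (ht.eventually_ge_atTop C)

/-- the numbers -/
private theorem zx_num {κ η δ : ℝ} (hκ : 0 < κ) (hη : 0 < η) (hδ : 0 < δ) (hδ8 : δ ≤ 1 / 8) : ∃ n0 : ℕ, ∀ n : ℕ, n0 ≤ n →
    1 ≤ n ∧ 1 ≤ κ * n ∧ ((3 * (⌊(n : ℝ) ^ δ⌋₊ + 1) : ℕ) : ℝ) ≤ κ * n ∧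
      (n : ℝ) ^ (1 - 4 * δ) ≤ (⌊(n : ℝ) ^ (1 - 3 * δ)⌋₊ : ℝ) ∧
      ∀ M : ℕ, (M : ℝ) ≤ 2 ^ ((n : ℝ) ^ δ) * (n : ℝ) ^ δ →
        ((M : ℝ) + 1) ^ (2 * ⌊(n : ℝ) ^ (1 - 3 * δ)⌋₊ * ⌊(n : ℝ) ^ δ⌋₊) < 2 ^ (η * n) := by
  obtain ⟨n1, h1⟩ := exists_nat_ge (1 / κ)
  obtain ⟨n2, h2⟩ := ev_ge (b := 1 - δ) (by linarith) (6 / κ)
  obtain ⟨n3, h3⟩ := ev_ge hδ 2
  obtain ⟨n4, h4⟩ := ev_ge hδ (7 / η)
  refine ⟨n1 + n2 + n3 + n4 + 1, fun n hn => ?_⟩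
  have hn0 : 1 ≤ n := by omega
  have hn1 : (1 : ℝ) ≤ n := by exact_mod_cast hn0
  have hnp : (0 : ℝ) < n := by linarith
  have a1 : 1 ≤ κ * n := by
    have h5 : 1 / κ ≤ n := h1.trans (by exact_mod_cast (by omega : n1 ≤ n))
    rw [div_le_iff₀ hκ] at h5
    linarith
  have a2 := h2 n (by omega)
  have a3 := h3 n (by omega)
  have a4 := h4 n (by omega)
  have e1 : (1 : ℝ) ≤ (n : ℝ) ^ δ := by linarith
  have e2 : (n : ℝ) ^ δ * (n : ℝ) ^ (1 - δ) = n := by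
    rw [← Real.rpow_add hnp]
    have : δ + (1 - δ) = 1 := by ring
    rw [this, Real.rpow_one]
  have f1 : (⌊(n : ℝ) ^ δ⌋₊ : ℝ) ≤ (n : ℝ) ^ δ := Nat.floor_le (by positivity)
  refine ⟨hn0, a1, ?_, ?_, ?_⟩
  · push_cast
    have f2 : 3 * ((⌊(n : ℝ) ^ δ⌋₊ : ℝ) + 1) ≤ 6 * (n : ℝ) ^ δ := by linarith
    have f3 : 6 ≤ κ * (n : ℝ) ^ (1 - δ) := by
      rw [div_le_iff₀ hκ] at a2
      linarith
    have f4 : 6 * (n : ℝ) ^ δ ≤ κ * (n : ℝ) ^ (1 - δ) * (n : ℝ) ^ δ := by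
      gcongr
    have f5 : κ * (n : ℝ) ^ (1 - δ) * (n : ℝ) ^ δ = κ * n := by
      rw [mul_assoc, mul_comm ((n : ℝ) ^ (1 - δ)), e2]
    linarith
  · have f1 : (n : ℝ) ^ (1 - 3 * δ) = (n : ℝ) ^ (1 - 4 * δ) * (n : ℝ) ^ δ := by
      rw [← Real.rpow_add hnp]
      congr 1
      ring
    have f2 : (1 : ℝ) ≤ (n : ℝ) ^ (1 - 4 * δ) := Real.one_le_rpow hn1 (by linarith)
    have f3 : (n : ℝ) ^ (1 - 3 * δ) < ⌊(n : ℝ) ^ (1 - 3 * δ)⌋₊ + 1 := Nat.lt_floor_add_one _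
    have f4 : (n : ℝ) ^ (1 - 4 * δ) * 2 ≤ (n : ℝ) ^ (1 - 4 * δ) * (n : ℝ) ^ δ := by gcongr
    linarith
  · intro M hM
    have g1 : (M : ℝ) + 1 ≤ 2 ^ (3 * (n : ℝ) ^ δ) := by
      have g2 : (2 : ℝ) ≤ 2 ^ ((n : ℝ) ^ δ) := by
        calc (2 : ℝ) = 2 ^ (1 : ℝ) := (Real.rpow_one 2).symm
          _ ≤ 2 ^ ((n : ℝ) ^ δ) := Real.rpow_le_rpow_of_exponent_le (by norm_num) e1
      have g3 : (n : ℝ) ^ δ ≤ 2 ^ ((n : ℝ) ^ δ) := by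
        have g4 := Real.add_one_le_exp ((n : ℝ) ^ δ * Real.log 2 )
        have g5 := one_add_mul_self_le_rpow_one_add (s := 1) (by norm_num) e1
        have g6 : (1 : ℝ) + 1 = 2 := by norm_num
        rw [g6] at g5
        linarith
      have g4 : (2 : ℝ) ^ (3 * (n : ℝ) ^ δ) = 2 ^ ((n : ℝ) ^ δ) * 2 ^ ((n : ℝ) ^ δ) * 2 ^ ((n : ℝ) ^ δ) := by
        rw [← Real.rpow_add (by norm_num), ← Real.rpow_add (by norm_num)]
        congr 1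
        ring
      have g5 : (M : ℝ) ≤ 2 ^ ((n : ℝ) ^ δ) * 2 ^ ((n : ℝ) ^ δ) := hM.trans (by gcongr)
      have g6 : (2 : ℝ) * 2 ≤ 2 ^ ((n : ℝ) ^ δ) * 2 ^ ((n : ℝ) ^ δ) := by gcongr
      rw [g4]
      nlinarith
    have g3 : ((M : ℝ) + 1) ^ (2 * ⌊(n : ℝ) ^ (1 - 3 * δ)⌋₊ * ⌊(n : ℝ) ^ δ⌋₊) ≤
        (2 ^ (3 * (n : ℝ) ^ δ)) ^ (2 * ⌊(n : ℝ) ^ (1 - 3 * δ)⌋₊ * ⌊(n : ℝ) ^ δ⌋₊) :=
      pow_le_pow_left₀ (by positivity) g1 _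
    refine lt_of_le_of_lt g3 ?_
    rw [← Real.rpow_natCast, ← Real.rpow_mul (by norm_num)]
    refine Real.rpow_lt_rpow_of_exponent_lt (by norm_num) ?_
    push_cast
    have g4 : (⌊(n : ℝ) ^ (1 - 3 * δ)⌋₊ : ℝ) ≤ (n : ℝ) ^ (1 - 3 * δ) := Nat.floor_le (by positivity)
    have g5 : 3 * (n : ℝ) ^ δ * (2 * (⌊(n : ℝ) ^ (1 - 3 * δ)⌋₊ : ℝ) * (⌊(n : ℝ) ^ δ⌋₊ : ℝ)) ≤
        3 * (n : ℝ) ^ δ * (2 * (n : ℝ) ^ (1 - 3 * δ) * (n : ℝ) ^ δ) := by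
      gcongr
    have g6 : 3 * (n : ℝ) ^ δ * (2 * (n : ℝ) ^ (1 - 3 * δ) * (n : ℝ) ^ δ) = 6 * (n : ℝ) ^ (1 - δ) := by
      have : (n : ℝ) ^ (1 - δ) = (n : ℝ) ^ δ * (n : ℝ) ^ (1 - 3 * δ) * (n : ℝ) ^ δ := by
        rw [← Real.rpow_add hnp, ← Real.rpow_add hnp]
        congr 1
        ring
      rw [this]
      ring
    have g7 : 7 ≤ η * (n : ℝ) ^ δ := by
      rw [div_le_iff₀ hη] at a4
      linarith
    have g8 : (0 : ℝ) < (n : ℝ) ^ (1 - δ) := by positivity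
    have g9 : η * n = η * (n : ℝ) ^ δ * (n : ℝ) ^ (1 - δ) := by
      rw [mul_assoc, e2]
    calc 3 * (n : ℝ) ^ δ * (2 * (⌊(n : ℝ) ^ (1 - 3 * δ)⌋₊ : ℝ) * (⌊(n : ℝ) ^ δ⌋₊ : ℝ)) ≤ 6 * (n : ℝ) ^ (1 - δ) := by
          rw [← g6]
          exact g5
      _ < 7 * (n : ℝ) ^ (1 - δ) := by linarith
      _ ≤ η * (n : ℝ) ^ δ * (n : ℝ) ^ (1 - δ) := by gcongr
      _ = η * n := g9.symm

theorem zxA (H : Hd3) {Δ : ℕ} (hΔ : 6 ≤ Δ) {e : ℝ} (he : 0 < e) : ∃ δ : ℝ, 0 < δ ∧ ∃ n0 : ℕ, ∀ n : ℕ, n0 ≤ n →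
    ((univ.filter fun φ : Fin (Δ * n) → Cl n =>
      ¬ (¬ Sat φ ∧ ∀ (M : ℕ) (P : Fin M → (Fin n → Bool) → Bool), (M : ℝ) ≤ 2 ^ ((n : ℝ) ^ δ) →
        (∀ i, Few (P i) ((n : ℝ) ^ δ)) → Hard3 (FolCl φ P ((n : ℝ) ^ δ)) (n : ℝ) e δ)).card : ℝ) ≤
      e * Fintype.card (Fin (Δ * n) → Cl n) := by
  obtain ⟨e', he'⟩ : ∃ e', e' = min (e / 2) (1 / 2) := ⟨_, rfl⟩
  have he0 : 0 < e' := by
    rw [he']
    exact lt_min (by linarith) (by norm_num)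
  have he1 : e' ≤ 1 / 2 := by
    rw [he']
    exact min_le_right _ _
  have he2 : e' ≤ e / 2 := by
    rw [he']
    exact min_le_left _ _
  obtain ⟨δ', hδ', K0, hK0⟩ := H e' he0
  obtain ⟨c, hc0, hc1, hexf⟩ := exf (by omega : 1 ≤ Δ)
  obtain ⟨C, hC0, htcp⟩ := tcp (by omega : 1 ≤ Δ)
  obtain ⟨κ, η, hκ, hη, hrnz⟩ := rnz hC0.le hc0
  obtain ⟨δ, hδd⟩ : ∃ δ, δ = min (min (δ' / 2) (e / 32)) (1 / 8) := ⟨_, rfl⟩
  have hδ0 : 0 < δ := by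
    rw [hδd]
    exact lt_min (lt_min (by linarith) (by linarith)) (by norm_num)
  have hδ1 : δ ≤ δ' / 2 := by
    rw [hδd]
    exact (min_le_left _ _).trans (min_le_left _ _)
  have hδ2 : δ ≤ e / 32 := by
    rw [hδd]
    exact (min_le_left _ _).trans (min_le_right _ _)
  have hδ3 : δ ≤ 1 / 8 := by
    rw [hδd]
    exact min_le_right _ _
  obtain ⟨n6, hn6⟩ := zx_num hκ hη hδ0 hδ3
  have he3 : 0 < e / 3 := by positivity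
  obtain ⟨n1, hn1⟩ := exists_pow_lt_of_lt_one (y := (9 / 10 : ℝ)) he3 (by norm_num)
  obtain ⟨n3, hn3⟩ := hexf (e / 3) he3
  obtain ⟨n4, hn4⟩ := htcp (e / 3) he3
  obtain ⟨n5, hn5⟩ := ev_ge (b := 1 - 4 * δ) (by linarith) (K0 : ℝ)
  refine ⟨δ, hδ0, n1 + n3 + n4 + n5 + n6 + 1, fun n hn => ?_⟩
  obtain ⟨hn0, hκn, hq, hKn, hM⟩ := hn6 n (by omega)
  have hnr : (1 : ℝ) ≤ n := by exact_mod_cast hn0
  have hn1' : n1 ≤ n := by omega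
  obtain ⟨K, hK⟩ : ∃ K, K = ⌊(n : ℝ) ^ (1 - 3 * δ)⌋₊ := ⟨_, rfl⟩
  rw [← hK] at hKn hM
  have hKK : K0 ≤ K := by
    have h1 := hn5 n (by omega)
    exact_mod_cast h1.trans hKn
  have hx1 : (1 : ℝ) ≤ (n : ℝ) ^ (1 - 4 * δ) := Real.one_le_rpow hnr (by linarith)
  have hK1 : (1 : ℝ) ≤ K := hx1.trans hKn
  have hpow : ∀ b b' : ℝ, 0 ≤ b → b' ≤ (1 - 4 * δ) * b → (n : ℝ) ^ b' ≤ (K : ℝ) ^ b := by
    intro b b' hb hb'
    calc (n : ℝ) ^ b' ≤ (n : ℝ) ^ ((1 - 4 * δ) * b) := Real.rpow_le_rpow_of_exponent_le hnr hb'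
      _ = ((n : ℝ) ^ (1 - 4 * δ)) ^ b := Real.rpow_mul (by positivity) _ _
      _ ≤ (K : ℝ) ^ b := Real.rpow_le_rpow (by positivity) hKn hb
  have p1 : (n : ℝ) ^ δ ≤ (K : ℝ) ^ δ' := hpow _ _ hδ'.le (by nlinarith)
  have p2 : (n : ℝ) ^ (2 - e) ≤ (K : ℝ) ^ (2 - e') := hpow _ _ (by linarith) (by nlinarith)
  have p3 : (n : ℝ) ^ (4 - e) ≤ (K : ℝ) ^ (4 - e') := hpow _ _ (by linarith) (by nlinarith)
  have hex := hn3 n (by omega)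
  have hsat := zx_sat (n := n) hΔ
  have hbal := hn4 n (by omega)
  have hsub : (univ.filter fun φ : Fin (Δ * n) → Cl n =>
      ¬ (¬ Sat φ ∧ ∀ (M : ℕ) (P : Fin M → (Fin n → Bool) → Bool), (M : ℝ) ≤ 2 ^ ((n : ℝ) ^ δ) →
        (∀ i, Few (P i) ((n : ℝ) ^ δ)) → Hard3 (FolCl φ P ((n : ℝ) ^ δ)) (n : ℝ) e δ)) ⊆
      ((univ.filter fun φ : Fin (Δ * n) → Cl n => Sat φ) ∪
      (univ.filter fun φ : Fin (Δ * n) → Cl n => ¬ Exp15 ⌊c * n⌋₊ φ)) ∪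
      (univ.filter fun φ : Fin (Δ * n) → Cl n => ¬ Tch C (fun j => cvar (φ j))) := by
    intro φ hφ
    rw [mem_filter] at hφ
    rw [mem_union, mem_union, mem_filter, mem_filter, mem_filter]
    by_contra hcon
    refine hφ.2 ⟨fun hs => hcon (Or.inl (Or.inl ⟨mem_univ _, hs⟩)), ?_⟩
    have h1 : Exp15 ⌊c * n⌋₊ φ := by
      by_contra h2
      exact hcon (Or.inl (Or.inr ⟨mem_univ _, h2⟩))
    have h2 : Tch C (fun j => cvar (φ j)) := by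
      by_contra h3
      exact hcon (Or.inr ⟨mem_univ _, h3⟩)
    intro M P hMn hP
    choose W hW1 hW2 using hP
    obtain ⟨w, hw⟩ : ∃ w, w = ⌊(n : ℝ) ^ δ⌋₊ := ⟨_, rfl⟩
    rw [← hw] at hq hM
    have hWw : ∀ i, (W i).card ≤ w := by
      intro i
      rw [hw]
      exact Nat.le_floor (hW1 i)
    obtain ⟨Q, hQ⟩ : ∃ Q : Finset (Finset (Fin n)), Q = univ.biUnion W := ⟨_, rfl⟩
    have hQc : (Q.card : ℝ) ≤ 2 ^ ((n : ℝ) ^ δ) * (n : ℝ) ^ δ := by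
      have g1 : Q.card ≤ M * w := by
        rw [hQ]
        refine (card_biUnion_le_card_mul _ _ w fun i _ => hWw i).trans (le_of_eq ?_)
        rw [card_univ, Fintype.card_fin]
      have g2 : (w : ℝ) ≤ (n : ℝ) ^ δ := by
        rw [hw]
        exact Nat.floor_le (by positivity)
      calc (Q.card : ℝ) ≤ (M : ℝ) * w := by exact_mod_cast g1
        _ ≤ 2 ^ ((n : ℝ) ^ δ) * (n : ℝ) ^ δ := mul_le_mul hMn g2 (Nat.cast_nonneg _) (by positivity)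
    obtain ⟨a, k, hk⟩ : ∃ (a : Fin Q.card → Finset (Fin n)) (k : ∀ S ∈ Q, Fin Q.card), ∀ S hS, a (k S hS) = S :=
      ⟨fun k => (Q.equivFin.symm k : Finset (Fin n)), fun S hS => Q.equivFin ⟨S, hS⟩, fun S hS => by
        show ((Q.equivFin.symm (Q.equivFin ⟨S, hS⟩)) : Finset (Fin n)) = S
        rw [Equiv.symm_apply_apply]⟩
    have hWQ : ∀ i, ∀ S ∈ W i, S ∈ Q := by
      intro i S hS
      rw [hQ]
      exact mem_biUnion.2 ⟨i, mem_univ _, hS⟩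
    obtain ⟨B, s, r, hWo, hB, hs⟩ := hrnz n (Δ * n) φ h1 h2 Q.card (2 * K * w) (3 * (w + 1)) a hκn hq (hM _ hQc)
    obtain ⟨L, V, hF, hV⟩ := fnl_wo hWo hB hs (k := w) le_rfl
    have hPV : ∀ i, sf1 (P i) ∈ V w := by
      intro i
      have g1 := hF.few (fun k x => px x (a k)) hV ((W i).attach.image fun S => k S.1 (hWQ i S.1 S.2)) (P i)
        (fun x y hxy => hW2 i x y fun S hS => by
          have g2 := hxy (k S (hWQ i S hS)) (mem_image.2 ⟨⟨S, hS⟩, mem_attach _ _, rfl⟩)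
          rw [hk S (hWQ i S hS)] at g2
          exact g2)
      refine hF.mono (card_image_le.trans ?_) g1
      rw [card_attach]
      exact hWw i
    have hPE : PE M K (FolCl φ P ((n : ℝ) ^ δ)) := by
      refine pe_of hF hPV le_rfl ?_
      rintro l ⟨-, J, hJ, hl⟩
      refine ⟨fun x => ∀ j ∈ J, ∃ i, x ((φ j).1 i) = (φ j).2 i, ⟨J, ?_, fun x => Iff.rfl⟩, hl⟩
      rw [hw]
      exact Nat.le_floor hJ
    have hH := hK0 M K (FolCl φ P ((n : ℝ) ^ δ)) hKK hPE (by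
      rintro l ⟨hl, -⟩
      exact hl.trans p1)
    exact hard3_mono hH p1 p2 p3
  obtain ⟨W, hW⟩ : ∃ W, W = Fintype.card (Fin (Δ * n) → Cl n) := ⟨_, rfl⟩
  rw [← hW] at hex hsat hbal ⊢
  have hW0 : (0 : ℝ) ≤ W := Nat.cast_nonneg _
  have h9 : (9 / 10 : ℝ) ^ n ≤ e / 3 :=
    (pow_le_pow_of_le_one (by norm_num) (by norm_num) hn1').trans hn1.le
  have hcard := ((card_le_card hsub).trans (card_union_le _ _)).trans
    (Nat.add_le_add_right (card_union_le _ _) _)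
  have hcard' := (Nat.cast_le (α := ℝ)).2 hcard
  push_cast at hcard'
  refine hcard'.trans ?_
  have h6 : (9 / 10 : ℝ) ^ n * W ≤ e / 3 * W := mul_le_mul_of_nonneg_right h9 hW0
  linarith

theorem zxB (H : Hd3) {e : ℝ} (he : 0 < e) : ∃ δ : ℝ, 0 < δ ∧ ∃ K0 : ℕ,
    ∀ (n K : ℕ) (Γ : Set (List (Fin n × Bool))), K0 ≤ K → PE n K Γ → (∀ c ∈ Γ, (c.length : ℝ) ≤ (K : ℝ) ^ δ) →
      ∀ (M : ℕ) (P : Fin M → (Fin n → Bool) → Bool), (∀ i, Jnt (P i) ((K : ℝ) ^ δ)) →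
        Hard3 (FolG Γ P ((K : ℝ) ^ δ)) (K : ℝ) e δ := by
  obtain ⟨e', he'⟩ : ∃ e', e' = min (e / 2) (1 / 2) := ⟨_, rfl⟩
  have he0 : 0 < e' := by
    rw [he']
    exact lt_min (by linarith) (by norm_num)
  have he1 : e' ≤ 1 / 2 := by
    rw [he']
    exact min_le_right _ _
  have he2 : e' ≤ e / 2 := by
    rw [he']
    exact min_le_left _ _
  obtain ⟨δ', hδ', K1, hK1⟩ := H e' he0
  obtain ⟨δ, hδd⟩ : ∃ δ, δ = min (min (δ' / 2) (e / 16)) (1 / 8) := ⟨_, rfl⟩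
  have hδ0 : 0 < δ := by
    rw [hδd]
    exact lt_min (lt_min (by linarith) (by linarith)) (by norm_num)
  have hδ1 : δ ≤ δ' / 2 := by
    rw [hδd]
    exact (min_le_left _ _).trans (min_le_left _ _)
  have hδ2 : δ ≤ e / 16 := by
    rw [hδd]
    exact (min_le_left _ _).trans (min_le_right _ _)
  have hδ3 : δ ≤ 1 / 8 := by
    rw [hδd]
    exact min_le_right _ _
  obtain ⟨n1, hn1⟩ := ev_ge (b := 1 - 2 * δ) (by linarith) (K1 : ℝ)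
  obtain ⟨n2, hn2⟩ := ev_ge hδ0 6
  obtain ⟨n3, hn3⟩ := ev_ge (b := 1 - 2 * δ) (by linarith) 2
  refine ⟨δ, hδ0, n1 + n2 + n3 + 1, fun n K Γ hK hPE hΓ M P hP => ?_⟩
  have hK0 : 1 ≤ K := by omega
  have hKr : (1 : ℝ) ≤ K := by exact_mod_cast hK0
  have hKp : (0 : ℝ) < K := by linarith
  have a1 := hn1 K (by omega)
  have a2 := hn2 K (by omega)
  have a3 := hn3 K (by omega)
  obtain ⟨w, hw⟩ : ∃ w, w = ⌊(K : ℝ) ^ δ⌋₊ := ⟨_, rfl⟩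
  have hwK : (w : ℝ) ≤ (K : ℝ) ^ δ := by
    rw [hw]
    exact Nat.floor_le (by positivity)
  obtain ⟨N, hN⟩ : ∃ N, N = K / (2 * (w + 1)) := ⟨_, rfl⟩
  have hw1 : 0 < 2 * (w + 1) := by omega
  have hNK : 2 * N * w ≤ K := by
    have h1 : K / (2 * (w + 1)) * (2 * (w + 1)) ≤ K := Nat.div_mul_le_self _ _
    rw [← hN] at h1
    nlinarith
  -- the size of N
  have hNl : (K : ℝ) ^ (1 - 2 * δ) ≤ N := by
    have h1 : K < 2 * (w + 1) * (N + 1) := by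
      rw [hN]
      exact Nat.lt_mul_div_succ K hw1
    have h2 : (K : ℝ) < 2 * ((w : ℝ) + 1) * (N + 1) := by exact_mod_cast h1
    have h3 : (K : ℝ) = (K : ℝ) ^ (1 - 2 * δ) * (K : ℝ) ^ δ * (K : ℝ) ^ δ := by
      rw [← Real.rpow_add hKp, ← Real.rpow_add hKp]
      have : 1 - 2 * δ + δ + δ = 1 := by ring
      rw [this, Real.rpow_one]
    have h4 : 2 * ((w : ℝ) + 1) * (N + 1) ≤ 4 * (K : ℝ) ^ δ * (N + 1) := by
      have : 2 * ((w : ℝ) + 1) ≤ 4 * (K : ℝ) ^ δ := by linarith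
      exact mul_le_mul_of_nonneg_right this (by positivity)
    have h5 : (K : ℝ) ^ (1 - 2 * δ) * (K : ℝ) ^ δ * (K : ℝ) ^ δ < 4 * (K : ℝ) ^ δ * (N + 1) := by
      rw [← h3]
      linarith
    have h6 : (K : ℝ) ^ (1 - 2 * δ) * (K : ℝ) ^ δ < 4 * (N + 1) := by
      have h7 : (0 : ℝ) < (K : ℝ) ^ δ := by positivity
      have h8 : ((K : ℝ) ^ (1 - 2 * δ) * (K : ℝ) ^ δ) * (K : ℝ) ^ δ < (4 * (N + 1)) * (K : ℝ) ^ δ := by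
        linarith
      exact lt_of_mul_lt_mul_right h8 h7.le
    have h7 : (K : ℝ) ^ (1 - 2 * δ) * 6 ≤ (K : ℝ) ^ (1 - 2 * δ) * (K : ℝ) ^ δ :=
      mul_le_mul_of_nonneg_left a2 (by positivity)
    linarith
  have hpow : ∀ b b' : ℝ, 0 ≤ b → b' ≤ (1 - 2 * δ) * b → (K : ℝ) ^ b' ≤ (N : ℝ) ^ b := by
    intro b b' hb hb'
    calc (K : ℝ) ^ b' ≤ (K : ℝ) ^ ((1 - 2 * δ) * b) := Real.rpow_le_rpow_of_exponent_le hKr hb'
      _ = ((K : ℝ) ^ (1 - 2 * δ)) ^ b := Real.rpow_mul (by positivity) _ _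
      _ ≤ (N : ℝ) ^ b := Real.rpow_le_rpow (by positivity) hNl hb
  have p1 : (K : ℝ) ^ δ ≤ (N : ℝ) ^ δ' := hpow _ _ hδ'.le (by nlinarith)
  have p2 : (K : ℝ) ^ (2 - e) ≤ (N : ℝ) ^ (2 - e') := hpow _ _ (by linarith) (by nlinarith)
  have p3 : (K : ℝ) ^ (4 - e) ≤ (N : ℝ) ^ (4 - e') := hpow _ _ (by linarith) (by nlinarith)
  have hlen : ∀ c ∈ Γ, c.length ≤ w := by
    intro c hc
    rw [hw]
    exact Nat.le_floor (hΓ c hc)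
  have hww : (w + 1) * w ≤ K := by
    have h1 : ((w : ℝ) + 1) * w ≤ ((K : ℝ) ^ δ * (K : ℝ) ^ δ) * (K : ℝ) ^ δ := by
      have h2 : (w : ℝ) + 1 ≤ (K : ℝ) ^ δ * (K : ℝ) ^ δ := by nlinarith
      exact mul_le_mul h2 hwK (Nat.cast_nonneg _) (by positivity)
    have h2 : ((K : ℝ) ^ δ * (K : ℝ) ^ δ) * (K : ℝ) ^ δ ≤ K := by
      rw [← Real.rpow_add hKp, ← Real.rpow_add hKp]
      calc (K : ℝ) ^ (δ + δ + δ) ≤ (K : ℝ) ^ (1 : ℝ) := Real.rpow_le_rpow_of_exponent_le hKr (by linarith)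
        _ = K := Real.rpow_one _
    exact_mod_cast h1.trans h2
  obtain ⟨L, V, hF, hV⟩ := fnl_pe (l := w) (k := w) (D := K) hPE hlen
    (by have h5 : w * w ≤ (w + 1) * w := Nat.mul_le_mul_right w (Nat.le_succ w)
        omega)
  have hPV : ∀ i, sf1 (P i) ∈ V w := by
    intro i
    obtain ⟨W, hW1, hW2⟩ := hP i
    have g1 := hF.few (fun (k : Fin n) x => x k) hV W (P i) (fun x y hxy => hW2 x y hxy)
    refine hF.mono ?_ g1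
    rw [hw]
    exact Nat.le_floor hW1
  have hPE' : PE M N (FolG Γ P ((K : ℝ) ^ δ)) := by
    refine pe_of hF hPV hNK ?_
    rintro l ⟨-, J, hJ1, hJ, hl⟩
    refine ⟨fun x => ∀ l ∈ J, ∃ p ∈ l, x p.1 = p.2, ⟨J, hJ1, ?_, fun x => Iff.rfl⟩, hl⟩
    rw [hw]
    exact Nat.le_floor hJ
  have hKN : K1 ≤ N := by
    exact_mod_cast a1.trans hNl
  have hH := hK1 M N (FolG Γ P ((K : ℝ) ^ δ)) hKN hPE' (by
    rintro l ⟨hl, -⟩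
    exact hl.trans p1)
  exact hard3_mono hH p1 p2 p3

end Pool.H63.ZX
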